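import Mathlib
import Pool.Agent.TH125.Gal.Grp
import Pool.Agent.TH118.SG.Pair

/-!
# The logarithm of a unipotent element kills all equivariant multilinear maps
-/

set_option linter.unusedSectionVars false

namespace Pool.Agent.Y126.JB

open Finset Function Polynomial

universe u v w x

section Poly

variable {K : Type u} [Field K] {T : Type v} [AddCommGroup T] [Module K T]
  {E : Type w} [AddCommGroup E] [Module K E] {S : Type} [Fintype S] [DecidableEq S] {d : ℕ}

/-- the polynomial -/
noncomputable def pol (h : MultilinearMap K (fun _ : S => T) E) (φ : E →ₗ[K] K)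
    (c : S → Fin (d + 2) → T) : K[X] :=
  ∑ r : S → Fin (d + 2), C (φ (h fun j => c j (r j))) * X ^ (∑ j, (r j : ℕ))

theorem pol_eval (h : MultilinearMap K (fun _ : S => T) E) (φ : E →ₗ[K] K)
    (c : S → Fin (d + 2) → T) (x : K) :
    (pol h φ c).eval x = φ (h fun j => ∑ l : Fin (d + 2), x ^ (l : ℕ) • c j l) := by
  rw [MultilinearMap.map_sum, map_sum, pol, Polynomial.eval_finsetSum]
  refine Finset.sum_congr rfl fun r _ => ?_
  have h2 := h.map_smul_univ (fun j => x ^ (r j : ℕ)) (fun j => c j (r j))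
  rw [h2, map_smul, Polynomial.eval_mul, Polynomial.eval_C, Polynomial.eval_pow,
    Polynomial.eval_X, Finset.prod_pow_eq_pow_sum, smul_eq_mul, mul_comm]

theorem ex_ne {r : S → Fin (d + 2)} (h : ∑ j, (r j : ℕ) = 1) : ∃ j, r j ≠ 0 := by
  by_contra hcon
  push Not at hcon
  rw [Finset.sum_eq_zero (fun j _ => by rw [hcon j]; rfl)] at h
  exact absurd h (by norm_num)

theorem sum_upd_one (j : S) :
    ∑ i, ((update (fun _ => (0 : Fin (d + 2))) j 1 : S → Fin (d + 2)) i : ℕ) = 1 := by
  rw [Finset.sum_eq_single j]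
  · rw [update_self]
    simp
  · intro i _ hi
    rw [update_of_ne hi]; rfl
  · intro hj
    exact absurd (Finset.mem_univ _) hj

theorem pol_coeff (h : MultilinearMap K (fun _ : S => T) E) (φ : E →ₗ[K] K)
    (c : S → Fin (d + 2) → T) :
    (pol h φ c).coeff 1 = φ (∑ j, h (update (fun i => c i 0) j (c j 1))) := by
  rw [pol, Polynomial.finsetSum_coeff, map_sum]
  have h1 : ∀ r : S → Fin (d + 2), (C (φ (h fun j => c j (r j))) *
      X ^ (∑ j, (r j : ℕ))).coeff 1 =
      if ∑ j, (r j : ℕ) = 1 then φ (h fun j => c j (r j)) else 0 := by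
    intro r
    rw [Polynomial.coeff_C_mul, Polynomial.coeff_X_pow]
    by_cases hr : ∑ j, (r j : ℕ) = 1
    · rw [if_pos hr, if_pos hr.symm, mul_one]
    · rw [if_neg hr, if_neg (fun h => hr h.symm), mul_zero]
  rw [Finset.sum_congr rfl fun r _ => h1 r, ← Finset.sum_filter]
  symm
  refine Finset.sum_bij' (fun j _ => update (fun _ => (0 : Fin (d + 2))) j 1)
    (fun r hr => Classical.choose (ex_ne (Finset.mem_filter.1 hr).2)) ?_ ?_ ?_ ?_ ?_
  · intro j _
    rw [Finset.mem_filter]
    exact ⟨Finset.mem_univ _, sum_upd_one j⟩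
  · intro r _
    exact Finset.mem_univ _
  · intro j hj
    have h2 : ∀ (hr : ∑ i, ((update (fun _ => (0 : Fin (d + 2))) j 1 : S → Fin (d + 2)) i : ℕ) = 1),
        Classical.choose (ex_ne hr) = j := by
      intro hr
      have h3 := Classical.choose_spec (ex_ne hr)
      by_contra hne
      apply h3
      exact update_of_ne hne _ _
    exact h2 (sum_upd_one j)
  · intro r hr
    have h2 := Classical.choose_spec (ex_ne (Finset.mem_filter.1 hr).2)
    set j := Classical.choose (ex_ne (Finset.mem_filter.1 hr).2)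
    have h3 := (Finset.mem_filter.1 hr).2
    rw [← Finset.add_sum_erase _ _ (Finset.mem_univ j)] at h3
    have h4 : 1 ≤ (r j : ℕ) := by
      have : (r j : ℕ) ≠ 0 := fun h => h2 (Fin.ext h)
      omega
    have h5 : ∑ x ∈ Finset.univ.erase j, (r x : ℕ) = 0 := by omega
    funext i
    by_cases hi : i = j
    · rw [hi, update_self]
      apply Fin.ext
      have : (r j : ℕ) = 1 := by omega
      rw [this]
      simp
    · rw [update_of_ne hi]
      have := (Finset.sum_eq_zero_iff.1 h5) i (Finset.mem_erase.2 ⟨hi, Finset.mem_univ _⟩)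
      exact (Fin.ext this).symm
  · intro j _
    congr 2
    funext i
    by_cases hi : i = j
    · subst hi
      rw [update_self, update_self]
    · rw [update_of_ne hi, update_of_ne hi]

theorem deriv_zero (h : MultilinearMap K (fun _ : S => T) E) (c : S → Fin (d + 2) → T)
    (hinf : {x : K | h (fun j => ∑ l : Fin (d + 2), x ^ (l : ℕ) • c j l) = h fun j => c j 0}.Infinite) :
    ∑ j, h (update (fun i => c i 0) j (c j 1)) = 0 := by
  rw [← Module.forall_dual_apply_eq_zero_iff K]
  intro φ
  rw [← pol_coeff h φ c]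
  have h1 : pol h φ c = C (φ (h fun j => c j 0)) := by
    refine Polynomial.eq_of_infinite_eval_eq _ _ (hinf.mono ?_)
    intro x hx
    rw [Set.mem_ofPred_eq] at hx ⊢
    rw [pol_eval, hx, eval_C]
  rw [h1, coeff_C_of_ne_zero one_ne_zero]

end Poly

section Log

variable {K : Type u} [Field K] [CharZero K] {A : Type v} [Ring A] [Algebra K A]

/-- the binomial coefficient as a polynomial -/
noncomputable def bp (K : Type u) [Field K] (i : ℕ) : K[X] :=
  C ((i.factorial : K)⁻¹) * descPochhammer K i

theorem bp_eval (i m : ℕ) : (bp K i).eval (m : K) = (m.choose i : K) := by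
  rw [bp, eval_mul, eval_C, descPochhammer_eval_eq_descFactorial, Nat.descFactorial_eq_factorial_mul_choose,
    Nat.cast_mul, ← mul_assoc, inv_mul_cancel₀ (Nat.cast_ne_zero.2 i.factorial_ne_zero), one_mul]

theorem bp_degree (i : ℕ) : (bp K i).natDegree ≤ i := by
  refine (natDegree_C_mul_le _ _).trans ?_
  rw [descPochhammer_natDegree]

theorem bp_zero : bp K 0 = 1 := by
  rw [bp, Nat.factorial_zero, Nat.cast_one, inv_one, descPochhammer_zero, map_one, mul_one]

theorem bp_one : bp K 1 = X := by
  rw [bp, Nat.factorial_one, Nat.cast_one, inv_one, descPochhammer_one, map_one, one_mul]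

theorem bp_coeff_zero {i : ℕ} (hi : i ≠ 0) : (bp K i).coeff 0 = 0 := by
  rw [coeff_zero_eq_eval_zero]
  have h := bp_eval (K := K) i 0
  rw [Nat.cast_zero] at h
  rw [h, Nat.choose_eq_zero_of_lt (Nat.pos_of_ne_zero hi), Nat.cast_zero]

/-- the coefficient of `t ^ l` in `(1 + M) ^ t` -/
noncomputable def Al (K : Type u) [Field K] {A : Type v} [Ring A] [Algebra K A] (M : A)
    (k l : ℕ) : A := ∑ i ∈ range k, (bp K i).coeff l • M ^ i

theorem Al_zero (M : A) {k : ℕ} (hk : 0 < k) : Al K M k 0 = 1 := by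
  rw [Al, Finset.sum_eq_single 0]
  · rw [bp_zero, coeff_one_zero, one_smul, pow_zero]
  · intro i _ hi
    rw [bp_coeff_zero hi, zero_smul]
  · intro h
    exact absurd (Finset.mem_range.2 hk) h

/-- `(1 + M) ^ m` for a natural number `m`. -/
theorem pow_eq (M : A) {k : ℕ} (hM : M ^ k = 0) (d : ℕ) (hd : k ≤ d + 2) (m : ℕ) :
    (1 + M) ^ m = ∑ l : Fin (d + 2), ((m : K) ^ (l : ℕ)) • Al K M k l := by
  have h1 : (1 + M) ^ m = ∑ i ∈ range k, (m.choose i : K) • M ^ i := by
    rw [(Commute.one_left M).add_pow']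
    rw [Finset.Nat.sum_antidiagonal_eq_sum_range_succ_mk]
    have h2 : ∀ i, m.choose i • ((1 : A) ^ i * M ^ (m - i)) = (m.choose i : K) • M ^ (m - i) := by
      intro i
      rw [one_pow, one_mul, ← Nat.cast_smul_eq_nsmul K]
    rw [Finset.sum_congr rfl fun i _ => h2 i]
    rw [← Finset.sum_range_reflect]
    have h3 : ∀ j ∈ range (m + 1), (m.choose (m + 1 - 1 - j) : K) • M ^ (m - (m + 1 - 1 - j)) =
        (m.choose j : K) • M ^ j := by
      intro j hj
      rw [Finset.mem_range] at hj
      have e1 : m - (m + 1 - 1 - j) = j := by omega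
      have e2 : m + 1 - 1 - j = m - j := by omega
      rw [e1, e2, Nat.choose_symm (by omega)]
    rw [Finset.sum_congr rfl h3]
    rcases le_total (m + 1) k with h4 | h4
    · refine Finset.sum_subset (Finset.range_mono h4) fun i _ hi => ?_
      rw [Finset.mem_range, not_lt] at hi
      rw [Nat.choose_eq_zero_of_lt (by omega), Nat.cast_zero, zero_smul]
    · symm
      refine Finset.sum_subset (Finset.range_mono h4) fun i _ hi => ?_
      rw [Finset.mem_range, not_lt] at hi
      obtain ⟨r, rfl⟩ := Nat.exists_eq_add_of_le hi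
      rw [pow_add, hM, zero_mul, smul_zero]
  rw [h1, ← Finset.sum_range fun l => ((m : K) ^ l) • Al K M k l]
  simp only [Al, Finset.smul_sum, smul_smul]
  rw [Finset.sum_comm]
  refine Finset.sum_congr rfl fun i hi => ?_
  rw [Finset.mem_range] at hi
  rw [← bp_eval, eval_eq_sum_range' (n := d + 2) (lt_of_le_of_lt (bp_degree i) (by omega)),
    ← Finset.sum_smul]
  congr 1
  exact Finset.sum_congr rfl fun l _ => mul_comm _ _

/-- the logarithm -/
noncomputable def lg (K : Type u) [Field K] {A : Type v} [Ring A] [Algebra K A] (M : A)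
    (k : ℕ) : A := Al K M k 1

theorem lg_eq (M : A) {k : ℕ} (hM : M ^ k = 0) : ∃ V : A, IsUnit V ∧ Commute M V ∧
    lg K M k = M * V := by
  have h0 : ∀ i ∈ range k, i ≠ 1 → ((bp K i).coeff 1) • M ^ i =
      M * (M * (if 2 ≤ i then ((bp K i).coeff 1) • M ^ (i - 2) else 0)) := by
    intro i _ hi
    rcases Nat.lt_or_ge i 2 with h | h
    · have h2 : i = 0 := by omega
      rw [if_neg (by omega), h2, bp_zero, coeff_one, if_neg one_ne_zero, zero_smul, mul_zero,
        mul_zero]
    · rw [if_pos h, mul_smul_comm, mul_smul_comm, ← mul_assoc, ← pow_two, ← pow_add,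
        Nat.add_sub_cancel' h]
  by_cases hk : 1 < k
  · set Q : A := ∑ i ∈ (range k).erase 1,
      (if 2 ≤ i then ((bp K i).coeff 1) • M ^ (i - 2) else 0) with hQ
    have hMQ : Commute M Q := by
      refine Commute.sum_right _ _ _ fun i _ => ?_
      split_ifs
      · exact ((Commute.refl M).pow_right _).smul_right _
      · exact Commute.zero_right _
    refine ⟨1 + M * Q, ?_, ?_, ?_⟩
    · have h1 : IsNilpotent (M * Q) := hMQ.isNilpotent_mul_right ⟨k, hM⟩
      exact h1.isUnit_one_add
    · exact (Commute.one_right M).add_right ((Commute.refl M).mul_right hMQ)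
    · rw [lg, Al, ← Finset.add_sum_erase _ _ (Finset.mem_range.2 hk), bp_one, coeff_X_one,
        one_smul, pow_one, mul_add, mul_one]
      congr 1
      rw [Finset.sum_congr rfl fun i hi => h0 i (Finset.mem_of_mem_erase hi)
        (Finset.ne_of_mem_erase hi), ← Finset.mul_sum, ← Finset.mul_sum]
  · have h1 : M ^ 1 = 0 := by
      rw [show (1 : ℕ) = k + (1 - k) by omega, pow_add, hM, zero_mul]
    rw [pow_one] at h1
    refine ⟨1, isUnit_one, Commute.one_right M, ?_⟩
    rw [mul_one, h1, lg, Al]
    refine Finset.sum_eq_zero fun i hi => ?_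
    rw [Finset.mem_range] at hi
    have h2 : i = 0 := by omega
    rw [h2, bp_zero, coeff_one, if_neg one_ne_zero, zero_smul]

end Log

section Kill

open Pool.Agent.TH125.Gal Pool.Agent.TH118.SG

variable {K : Type u} [Field K] [CharZero K] {T : Type v} [AddCommGroup T] [Module K T]
  {E : Type w} [AddCommGroup E] [Module K E] {S : Type} [Fintype S] [DecidableEq S]
  {G : Type x} [Group G] {B : T →ₗ[K] T →ₗ[K] K} {ρ : G →* (T →ₗ[K] T)} {σ : G →* (E →ₗ[K] E)}

theorem lg_kill (h : MultilinearMap K (fun _ : S => T) E) {u : Module.End K T} {k : ℕ}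
    (hu : (u - 1) ^ k = 0) (hinv : {m : ℕ | ∀ v, h (fun j => (u ^ m) (v j)) = h v}.Infinite) :
    Kill (lg K (u - 1) k) h := by
  intro v
  have h1 : (1 + (u - 1) : Module.End K T) = u := by abel
  by_cases hk : k = 0
  · -- everything is zero
    subst hk
    have h2 : (1 : Module.End K T) = 0 := by rw [← hu, pow_zero]
    have h3 : ∀ t : T, t = 0 := by
      intro t
      have := LinearMap.congr_fun h2 t
      exact this
    refine Finset.sum_eq_zero fun j _ => ?_
    rw [h3 (lg K (u - 1) 0 (v j))]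
    exact h.map_coord_zero j (update_self _ _ _)
  have hpow := fun m => pow_eq (K := K) (u - 1) hu k (by omega) m
  rw [h1] at hpow
  have h2 := deriv_zero (d := k) h (fun j l => Al K (u - 1) k l (v j)) ?_
  · have h3 : (fun i => (Al K (u - 1) k ((0 : Fin (k + 2)) : ℕ)) (v i)) = v := by
      funext i
      rw [Fin.val_zero, Al_zero _ (Nat.pos_of_ne_zero hk), Module.End.one_apply]
    rw [h3] at h2
    have h4 : ((1 : Fin (k + 2)) : ℕ) = 1 := by simp
    rw [h4] at h2
    exact h2
  · have h3 : (fun i => (Al K (u - 1) k ((0 : Fin (k + 2)) : ℕ)) (v i)) = v := by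
      funext i
      rw [Fin.val_zero, Al_zero _ (Nat.pos_of_ne_zero hk), Module.End.one_apply]
    refine (hinv.image (f := fun m : ℕ => (m : K)) (Nat.cast_injective.injOn)).mono ?_
    rintro _ ⟨m, hm, rfl⟩
    rw [Set.mem_ofPred_eq]
    rw [h3, ← hm v]
    congr 1
    funext j
    rw [hpow m, LinearMap.sum_apply]
    exact Finset.sum_congr rfl fun l _ => rfl

end Kill

section Mem

open Pool.Agent.TH125.Gal Pool.Agent.TH118.SG

variable {K : Type} [Field K] [CharZero K] [IsAlgClosed K] {T : Type} [AddCommGroup T]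
  [Module K T] [FiniteDimensional K T] {E : Type} [AddCommGroup E] [Module K E]
  [FiniteDimensional K E] {S : Type} [Fintype S] [DecidableEq S] {G : Type} [Group G]
  {B : T →ₗ[K] T →ₗ[K] K} {ρ : G →* (T →ₗ[K] T)} {σ : G →* (E →ₗ[K] E)}

/-- **The logarithm of a unipotent element is in the Lie algebra.** -/
theorem lg_mem {g : G} {k : ℕ} (hg : (ρ g - 1) ^ k = 0)
    (hB : ∀ x y, B (ρ g x) (ρ g y) = B x y) (hσ : σ g = 1) : lg K (ρ g - 1) k ∈ LL S B ρ σ := by
  refine ⟨?_, fun h hh => ?_⟩
  · have h1 := lg_kill (bm B) hg (u := ρ g) ?_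
    · intro x y
      have h2 := h1 ![x, y]
      rw [Fin.sum_univ_two] at h2
      simpa [bm] using h2
    · refine Set.infinite_univ.mono fun m _ v => ?_
      change B ((ρ g ^ m) (v 0)) ((ρ g ^ m) (v 1)) = B (v 0) (v 1)
      have h3 : ∀ (m : ℕ) x y, B ((ρ g ^ m) x) ((ρ g ^ m) y) = B x y := by
        intro m
        induction m with
        | zero => intro x y; rfl
        | succ m ih =>
          intro x y
          rw [pow_succ, Module.End.mul_apply, Module.End.mul_apply, ih, hB]
      exact h3 m _ _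
  · obtain ⟨Δ, hΔ, h1⟩ := hh
    obtain ⟨n, hn, hgn⟩ := exists_pow hΔ g
    refine lg_kill h hg ?_
    refine Set.infinite_of_injective_forall_mem (f := fun l : ℕ => n * l) ?_ ?_
    · intro l l' hl
      exact Nat.eq_of_mul_eq_mul_left hn hl
    · intro l v
      have h3 : g ^ (n * l) ∈ Δ := by
        rw [pow_mul]
        exact Subgroup.pow_mem _ hgn l
      have h4 := h1 _ h3 v
      rw [map_pow σ, hσ, one_pow, map_pow] at h4
      exact h4

end Mem

end Pool.Agent.Y126.JB
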