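import Mathlib
import Pool.Agent.TH118.CR.Irr

/-!
# The trace form on a Lie algebra of skew operators which is normalised by a strongly irreducible group
-/

set_option linter.unusedSectionVars false

namespace Pool.Agent.Y126.JB

open Module Pool.Agent.W522.U Pool.Agent.TH118.CR

attribute [local instance 100] LieRing.ofAssociativeRing

variable {K : Type} [Field K] [CharZero K] [IsAlgClosed K] {T : Type} [AddCommGroup T]
  [Module K T] [FiniteDimensional K T] {Γ : Type} [Group Γ] {R : Representation K Γ T}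
  {L : Submodule K (End K T)} {ω : T →ₗ[K] T →ₗ[K] K}

/-- Commuting operators have a common eigenvector. -/
theorem exists_common [Nontrivial T] (P : Submodule K (End K T))
    (hc : ∀ x ∈ P, ∀ y ∈ P, x * y = y * x) : ∃ d : T, d ≠ 0 ∧ ∀ x ∈ P, ∃ a : K, x d = a • d := by
  classical
  -- a minimal nonzero stable subspace
  obtain ⟨n, hn⟩ : ∃ n, n = finrank K T := ⟨_, rfl⟩
  have key : ∀ n, ∀ W : Submodule K T, finrank K W = n → W ≠ ⊥ → (∀ x ∈ P, ∀ w ∈ W, x w ∈ W) →
      ∃ d : T, d ≠ 0 ∧ ∀ x ∈ P, ∃ a : K, x d = a • d := by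
    intro n
    induction n using Nat.strong_induction_on with
    | _ n ih =>
      intro W hWn hW hst
      by_cases hall : ∀ x ∈ P, ∃ a : K, ∀ w ∈ W, x w = a • w
      · obtain ⟨d, hd, hd0⟩ := Submodule.exists_mem_ne_zero_of_ne_bot hW
        exact ⟨d, hd0, fun x hx => by
          obtain ⟨a, ha⟩ := hall x hx
          exact ⟨a, ha d hd⟩⟩
      · push Not at hall
        obtain ⟨x, hx, hxa⟩ := hall
        have : Nontrivial W := Submodule.nontrivial_iff_ne_bot.2 hW
        obtain ⟨a, ha⟩ := Module.End.exists_eigenvalue (x.restrict (hst x hx))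
        obtain ⟨w, hw⟩ := ha.exists_hasEigenvector
        let W' : Submodule K T :=
          { carrier := {w | w ∈ W ∧ x w = a • w}
            zero_mem' := ⟨W.zero_mem, by rw [map_zero, smul_zero]⟩
            add_mem' := fun {u v} hu hv => ⟨W.add_mem hu.1 hv.1, by
              rw [map_add, hu.2, hv.2, smul_add]⟩
            smul_mem' := fun c u hu => ⟨W.smul_mem c hu.1, by
              rw [map_smul, hu.2, smul_comm]⟩ }
        have hlt : W' < W := by
          refine lt_of_le_of_ne (fun w hw => hw.1) fun h => ?_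
          obtain ⟨w', hw', hne⟩ := hxa a
          apply hne
          rw [← h] at hw'
          exact hw'.2
        refine ih (finrank K W') ?_ W' rfl ?_ ?_
        · rw [← hWn]
          exact Submodule.finrank_lt_finrank_of_lt hlt
        · rw [Submodule.ne_bot_iff]
          refine ⟨w, ⟨w.2, ?_⟩, fun h => hw.2 (Subtype.ext h)⟩
          have h1 := hw.apply_eq_smul
          exact congrArg Subtype.val h1
        · intro y hy w' hw'
          refine ⟨hst y hy w' hw'.1, ?_⟩
          have h1 : x (y w') = y (x w') := by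
            rw [← Module.End.mul_apply, hc x hx y hy, Module.End.mul_apply]
          rw [h1, hw'.2, map_smul]
  exact key n ⊤ (by rw [finrank_top, hn]) top_ne_bot fun _ _ _ _ => Submodule.mem_top

variable (hconj : ∀ g : Γ, ∀ Y ∈ L, R g * Y * R g⁻¹ ∈ L)
  (hbr : ∀ Y ∈ L, ∀ Z ∈ L, Y * Z - Z * Y ∈ L)
  (hX : SI R (⊤ : Submodule K T))

include hconj hX in
/-- Commuting skew operators. -/
theorem comm_zero (hnd : ∀ u, (∀ v, ω u v = 0) → u = 0)
    (hsp : ∀ Y ∈ L, ∀ u w, ω (Y u) w + ω u (Y w) = 0)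
    (hc : ∀ x ∈ L, ∀ y ∈ L, x * y = y * x) {x : End K T} (hx : x ∈ L) : x = 0 := by
  have hT : Nontrivial T := by
    rw [← Submodule.nontrivial_iff K]
    exact ⟨⟨⊤, ⊥, hX.1⟩⟩
  obtain ⟨d, hd0, hd⟩ := exists_common L hc
  obtain ⟨a, ha⟩ := scalar_of_vector hX L hconj Submodule.mem_top hd0 hd x hx
  refine LinearMap.ext fun u => hnd _ fun v => ?_
  have h1 := hsp x hx u v
  rw [ha u Submodule.mem_top, ha v Submodule.mem_top, map_smul, map_smul, LinearMap.smul_apply,
    smul_eq_mul] at h1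
  rw [ha u Submodule.mem_top, map_smul, LinearMap.smul_apply, smul_eq_mul]
  have h2 : (2 : K) * (a * ω u v) = 0 := by linear_combination h1
  exact (mul_eq_zero.1 h2).resolve_left two_ne_zero

include hconj hbr hX in
/-- **The trace form is nondegenerate.** -/
theorem trace_nondeg (hnd : ∀ u, (∀ v, ω u v = 0) → u = 0)
    (hsp : ∀ Y ∈ L, ∀ u w, ω (Y u) w + ω u (Y w) = 0)
    {y : End K T} (hy : y ∈ L) (h : ∀ z ∈ L, LinearMap.trace K T (y * z) = 0) : y = 0 := by
  have hT : Nontrivial T := by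
    rw [← Submodule.nontrivial_iff K]
    exact ⟨⟨⊤, ⊥, hX.1⟩⟩
  let rad : Submodule K (End K T) :=
    { carrier := {y | y ∈ L ∧ ∀ z ∈ L, LinearMap.trace K T (y * z) = 0}
      zero_mem' := ⟨L.zero_mem, fun z _ => by rw [zero_mul, map_zero]⟩
      add_mem' := fun {u v} hu hv => ⟨L.add_mem hu.1 hv.1, fun z hz => by
        rw [add_mul, map_add, hu.2 z hz, hv.2 z hz, add_zero]⟩
      smul_mem' := fun c u hu => ⟨L.smul_mem c hu.1, fun z hz => by
        rw [smul_mul_assoc, map_smul, hu.2 z hz, smul_zero]⟩ }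
  have hrconj : ∀ g : Γ, ∀ Y ∈ rad, R g * Y * R g⁻¹ ∈ rad := by
    intro g Y hY
    refine ⟨hconj g Y hY.1, fun z hz => ?_⟩
    have h1 := hY.2 (R g⁻¹ * z * R g) (by
      have h2 := hconj g⁻¹ z hz
      rwa [inv_inv] at h2)
    have h3 : R g * Y * R g⁻¹ * z = R g * (Y * (R g⁻¹ * z)) := by simp only [mul_assoc]
    rw [h3, LinearMap.trace_mul_comm, ← h1]
    simp only [mul_assoc]
  have hrbr : ∀ Y ∈ rad, ∀ Z ∈ rad, Y * Z - Z * Y ∈ rad := by
    intro Y hY Z hZ
    refine ⟨hbr Y hY.1 Z hZ.1, fun w hw => ?_⟩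
    have h1 := hY.2 _ (hbr Z hZ.1 w hw)
    have h2 : LinearMap.trace K T (Z * Y * w) = LinearMap.trace K T (Y * w * Z) := by
      rw [mul_assoc, LinearMap.trace_mul_comm]
    rw [sub_mul, map_sub, h2, ← map_sub, ← h1]
    congr 1
    noncomm_ring
  let 𝔏 : LieSubalgebra K (End K T) :=
    { rad with
      lie_mem' := fun {x y} hx hy => hrbr x hx y hy }
  have hmem : ∀ {x : End K T}, x ∈ 𝔏 ↔ x ∈ rad := Iff.rfl
  have htr : LieModule.traceForm K 𝔏 T = 0 := by
    refine LinearMap.ext fun x => LinearMap.ext fun z => ?_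
    rw [LieModule.traceForm_apply_apply, LinearMap.zero_apply, LinearMap.zero_apply]
    exact x.2.2 _ z.2.1
  have hnil := LieModule.isNilpotent_derivedSeries_of_traceForm_eq_zero htr
  have hcomm : ∀ x ∈ rad, ∀ y ∈ rad, x * y = y * x := by
    have hnt := LieModule.nontrivial_max_triv_of_isNilpotent K
      (LieAlgebra.derivedSeries K 𝔏 1) T
    obtain ⟨u, hu⟩ := exists_ne (0 : LieModule.maxTrivSubmodule K
      (LieAlgebra.derivedSeries K 𝔏 1) T)
    have hu0 : (u : T) ≠ 0 := fun h => hu (Subtype.ext h)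
    have hkill : ∀ x ∈ rad, ∀ y ∈ rad, (x * y - y * x) (u : T) = 0 := by
      intro x hx y hy
      have h1 : (⁅(⟨x, hx⟩ : 𝔏), (⟨y, hy⟩ : 𝔏)⁆ : 𝔏) ∈ LieAlgebra.derivedSeries K 𝔏 1 := by
        rw [LieAlgebra.derivedSeries_def, LieAlgebra.derivedSeriesOfIdeal_succ,
          LieAlgebra.derivedSeriesOfIdeal_zero]
        exact LieSubmodule.lie_mem_lie trivial trivial
      have h2 := u.2
      rw [LieModule.mem_maxTrivSubmodule] at h2
      exact h2 ⟨_, h1⟩
    let U : Submodule K T :=
      { carrier := {u | ∀ x ∈ rad, ∀ y ∈ rad, (x * y - y * x) u = 0}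
        zero_mem' := fun x _ y _ => map_zero _
        add_mem' := fun {u v} hu hv x hx y hy => by rw [map_add, hu x hx y hy, hv x hx y hy, add_zero]
        smul_mem' := fun c u hu x hx y hy => by rw [map_smul, hu x hx y hy, smul_zero] }
    have hU : Pot R U := by
      refine ⟨⊤, inferInstance, fun g _ w hw x hx y hy => ?_⟩
      have hc' : ∀ Y ∈ rad, R g⁻¹ * Y * R g ∈ rad := fun Y hY => by
        have h2 := hrconj g⁻¹ Y hY
        rwa [inv_inv] at h2
      have h1 := hw _ (hc' x hx) _ (hc' y hy)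
      have hgg : R g * R g⁻¹ = 1 := by rw [← map_mul, mul_inv_cancel, map_one]
      have hgg' : R g⁻¹ * R g = 1 := by rw [← map_mul, inv_mul_cancel, map_one]
      have h3 : R g⁻¹ * x * R g * (R g⁻¹ * y * R g) - R g⁻¹ * y * R g * (R g⁻¹ * x * R g) =
          R g⁻¹ * ((x * y - y * x) * R g) := by
        calc R g⁻¹ * x * R g * (R g⁻¹ * y * R g) - R g⁻¹ * y * R g * (R g⁻¹ * x * R g)
            = R g⁻¹ * x * (R g * R g⁻¹) * y * R g - R g⁻¹ * y * (R g * R g⁻¹) * x * R g := by
              noncomm_ring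
          _ = R g⁻¹ * ((x * y - y * x) * R g) := by rw [hgg]; noncomm_ring
      rw [h3, Module.End.mul_apply, Module.End.mul_apply] at h1
      have h4 := congrArg (R g) h1
      rw [map_zero, ← Module.End.mul_apply, hgg, Module.End.one_apply] at h4
      exact h4
    have hUt : U = ⊤ := by
      rcases hX.2.2 U le_top hU with h' | h'
      · exfalso
        have h1 : (u : T) ∈ U := hkill
        rw [h', Submodule.mem_bot] at h1
        exact hu0 h1
      · exact h'
    intro x hx y hy
    rw [← sub_eq_zero]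
    refine LinearMap.ext fun v => ?_
    have h1 : v ∈ U := by rw [hUt]; exact Submodule.mem_top
    exact h1 x hx y hy
  exact comm_zero (L := rad) hrconj hX hnd (fun Y hY => hsp Y hY.1) hcomm ⟨hy, h⟩

end Pool.Agent.Y126.JB
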