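import Mathlib

/-!
# The lemma of Jacobson and Morozov in a Lie algebra of operators with nondegenerate trace form
-/

set_option linter.unusedSectionVars false

namespace Pool.Agent.Y126.JB

open Module

section Alg

variable {K : Type*} [Field K] [CharZero K] {A : Type*} [Ring A] [Algebra K A]

/-- The commutator with `e`. -/
def ad (K : Type*) [Field K] {A : Type*} [Ring A] [Algebra K A] (e : A) : A →ₗ[K] A :=
  LinearMap.mulLeft K e - LinearMap.mulRight K e

theorem ad_apply (e z : A) : ad K e z = e * z - z * e := rfl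

theorem ad_mul (e x y : A) : ad K e (x * y) = ad K e x * y + x * ad K e y := by
  rw [ad_apply, ad_apply, ad_apply]
  noncomm_ring

theorem ad_nilpotent {e : A} (he : IsNilpotent e) : IsNilpotent (ad K e) := by
  have h1 : IsNilpotent (LinearMap.mulLeft K e) := by
    obtain ⟨n, hn⟩ := he
    exact ⟨n, by rw [LinearMap.pow_mulLeft, hn, LinearMap.mulLeft_zero_eq_zero]⟩
  have h2 : IsNilpotent (LinearMap.mulRight K e) := by
    obtain ⟨n, hn⟩ := he
    exact ⟨n, by rw [LinearMap.pow_mulRight, hn, LinearMap.mulRight_zero_eq_zero]⟩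
  exact (LinearMap.commute_mulLeft_right (R := K) e e).isNilpotent_sub h1 h2

theorem ad_pow_mul {e z : A} (hz : ad K e (ad K e z) = 0) (n : ℕ) (x : A) :
    (ad K e ^ (n + 1)) (z * x) = z * (ad K e ^ (n + 1)) x +
      ((n + 1 : ℕ) : K) • (ad K e z * (ad K e ^ n) x) := by
  induction n with
  | zero =>
    simp only [zero_add, pow_one, pow_zero, Module.End.one_apply, Nat.cast_one, one_smul]
    rw [ad_mul, add_comm]
  | succ n ih =>
    rw [pow_succ', Module.End.mul_apply, ih, map_add, map_smul, ad_mul, ad_mul, hz, zero_mul,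
      zero_add]
    have h1 : ∀ k (y : A), ad K e ((ad K e ^ k) y) = (ad K e ^ (k + 1)) y := fun k y => by
      rw [pow_succ', Module.End.mul_apply]
    rw [h1, h1, ← pow_succ']
    push_cast
    module

theorem ad_comm_pow {e w : A} (hw : ad K e w = 0) (n : ℕ) : ad K e (w ^ n) = 0 := by
  induction n with
  | zero => rw [pow_zero, ad_apply, mul_one, one_mul, sub_self]
  | succ n ih => rw [pow_succ, ad_mul, hw, ih, zero_mul, mul_zero, add_zero]

theorem ad_pow_pow {e z : A} (hz : ad K e (ad K e z) = 0) (n : ℕ) :
    (ad K e ^ n) (z ^ n) = (n.factorial : K) • (ad K e z) ^ n := by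
  induction n with
  | zero => simp
  | succ n ih =>
    rw [pow_succ' z, ad_pow_mul hz, pow_succ' (ad K e) n, Module.End.mul_apply, ih, map_smul,
      ad_comm_pow hz, smul_zero, mul_zero, zero_add, mul_smul_comm, smul_smul, ← pow_succ',
      Nat.factorial_succ, Nat.cast_mul]

/-- The lemma of Jacobson. -/
theorem jacobson {e z : A} (he : IsNilpotent e) (hz : ad K e (ad K e z) = 0) :
    IsNilpotent (ad K e z) := by
  obtain ⟨n, hn⟩ := ad_nilpotent (K := K) he
  refine ⟨n, ?_⟩
  have h1 := ad_pow_pow hz n
  rw [hn, LinearMap.zero_apply] at h1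
  exact (smul_eq_zero.1 h1.symm).resolve_left (Nat.cast_ne_zero.2 n.factorial_ne_zero)

theorem pow_comm' {e z : A} (hz : ad K e (ad K e z) = 0) (j : ℕ) :
    e ^ (j + 1) * z = z * e ^ (j + 1) + ((j + 1 : ℕ) : K) • (e ^ j * ad K e z) := by
  have hc : e * ad K e z = ad K e z * e := by
    rw [ad_apply (K := K) e (ad K e z)] at hz
    exact sub_eq_zero.1 hz
  induction j with
  | zero => simp [ad_apply]
  | succ j ih =>
    have hcj : e ^ (j + 1) * ad K e z = e ^ j * ad K e z * e := by
      rw [pow_succ, mul_assoc, hc, ← mul_assoc]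
    calc e ^ (j + 1 + 1) * z = e ^ (j + 1) * (e * z) := by rw [pow_succ e (j + 1), mul_assoc]
      _ = e ^ (j + 1) * (z * e + ad K e z) := by rw [ad_apply]; congr 1; abel
      _ = e ^ (j + 1) * z * e + e ^ (j + 1) * ad K e z := by rw [mul_add, mul_assoc]
      _ = z * e ^ (j + 1 + 1) + ((j + 1 : ℕ) : K) • (e ^ j * ad K e z * e) +
          e ^ (j + 1) * ad K e z := by
        rw [ih, add_mul, smul_mul_assoc, mul_assoc z, ← pow_succ e (j + 1)]
      _ = _ := by
        rw [← hcj]
        push_cast
        module

end Alg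

section End

variable {K : Type*} [Field K] [CharZero K] {T : Type*} [AddCommGroup T] [Module K T]
  [FiniteDimensional K T]

/-- If `[e, [e, z]] = 0` for a nilpotent `e`, then `e z` is nilpotent. -/
theorem nilp_mul {e z : End K T} (he : IsNilpotent e) (hz : ad K e (ad K e z) = 0) :
    IsNilpotent (e * z) := by
  obtain ⟨m, hm⟩ := jacobson he hz
  obtain ⟨n, hn⟩ := he
  have key : ∀ i : ℕ, ∀ v, (e ^ i) v = 0 → ((e * z) ^ (m * i)) v = 0 := by
    intro i
    induction i with
    | zero =>
      intro v hv
      rw [pow_zero, Module.End.one_apply] at hv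
      rw [hv, map_zero]
    | succ i ih =>
      intro v hv
      have hc : e * ad K e z = ad K e z * e := by
        rw [ad_apply (K := K) e (ad K e z)] at hz
        exact sub_eq_zero.1 hz
      have hcp : ∀ j, e ^ j * ad K e z = ad K e z * e ^ j := fun j =>
        ((show Commute e (ad K e z) from hc).pow_left j).eq
      have h1 : ∀ k, (e ^ (i + 1)) (((e * z) ^ k) v) = 0 ∧
          (e ^ i) (((e * z) ^ k) v) = (((i + 1 : ℕ) : K) ^ k) • ((ad K e z) ^ k) ((e ^ i) v) := by
        intro k
        induction k with
        | zero => exact ⟨by simpa using hv, by simp⟩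
        | succ k ihk =>
          obtain ⟨h2, h3⟩ := ihk
          have h4 : ∀ u, (e * z) u = e (z u) := fun _ => rfl
          rw [pow_succ' (e * z) k, Module.End.mul_apply]
          generalize ((e * z) ^ k) v = u at h2 h3
          have h5 : (e ^ i) ((e * z) u) = (e ^ (i + 1) * z) u := by
            rw [pow_succ]
            rfl
          have h6 : (e ^ (i + 1)) ((e * z) u) = (e ^ (i + 1 + 1) * z) u := by
            rw [pow_succ e (i + 1)]
            rfl
          constructor
          · rw [h6, pow_comm' hz, LinearMap.add_apply, LinearMap.smul_apply, hcp,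
              Module.End.mul_apply, Module.End.mul_apply, pow_succ' e (i + 1),
              Module.End.mul_apply, h2, map_zero, map_zero, map_zero, smul_zero, add_zero]
          · rw [h5, pow_comm' hz, LinearMap.add_apply, LinearMap.smul_apply, hcp,
              Module.End.mul_apply, Module.End.mul_apply, h2, map_zero, zero_add, h3, map_smul,
              smul_smul, pow_succ' (ad K e z) k, Module.End.mul_apply, ← pow_succ']
      have h2 := (h1 m).2
      rw [hm, LinearMap.zero_apply, smul_zero] at h2
      have h3 := ih _ h2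
      rw [← Module.End.mul_apply, ← pow_add, ← Nat.mul_succ] at h3
      exact h3
  refine ⟨m * n, LinearMap.ext fun v => key n v ?_⟩
  rw [hn, LinearMap.zero_apply]

theorem trace_zero {e z : End K T} (he : IsNilpotent e) (hz : ad K e (ad K e z) = 0) :
    LinearMap.trace K T (e * z) = 0 :=
  (LinearMap.isNilpotent_trace_of_isNilpotent (nilp_mul he hz)).eq_zero

theorem trace_ad (e a x : End K T) :
    LinearMap.trace K T (a * ad K e (ad K e x)) = LinearMap.trace K T (ad K e (ad K e a) * x) := by
  have h1 : ∀ a x : End K T, LinearMap.trace K T (a * ad K e x) =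
      -LinearMap.trace K T (ad K e a * x) := by
    intro a x
    rw [ad_apply, ad_apply, mul_sub, sub_mul, map_sub, map_sub]
    have h2 : LinearMap.trace K T (a * (x * e)) = LinearMap.trace K T (e * a * x) := by
      rw [← mul_assoc, LinearMap.trace_mul_comm, mul_assoc]
    have h3 : a * (e * x) = a * e * x := by rw [mul_assoc]
    rw [h2, h3]
    ring
  rw [h1, h1, neg_neg]

/-- **Jacobson-Morozov**: half of the triple. -/
theorem jm {L : Submodule K (End K T)} (hbr : ∀ Y ∈ L, ∀ Z ∈ L, Y * Z - Z * Y ∈ L)
    (hnd : ∀ y ∈ L, (∀ z ∈ L, LinearMap.trace K T (y * z) = 0) → y = 0) {e : End K T}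
    (he : e ∈ L) (hen : IsNilpotent e) :
    ∃ f ∈ L, ad K e (ad K e f) = (-2 : K) • e := by
  have hst : ∀ x ∈ L, ad K e x ∈ L := fun x hx => hbr e he x hx
  have hst2 : ∀ x ∈ L, (ad K e * ad K e) x ∈ L := fun x hx => hst _ (hst x hx)
  let A : L →ₗ[K] L := (ad K e * ad K e).restrict hst2
  suffices h : (⟨e, he⟩ : L) ∈ LinearMap.range A by
    obtain ⟨f, hf⟩ := h
    refine ⟨(-2 : K) • (f : End K T), L.smul_mem _ f.2, ?_⟩
    have h1 : ad K e (ad K e (f : End K T)) = e := congrArg Subtype.val hf
    rw [map_smul, map_smul, h1]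
  by_contra hcon
  obtain ⟨ψ, hψ, hψ0⟩ := Submodule.exists_dual_map_eq_bot_of_notMem hcon inferInstance
  -- represent the functional
  let Φ : L →ₗ[K] Dual K L :=
    { toFun := fun a => ((LinearMap.trace K T).comp (LinearMap.mulLeft K (a : End K T))).comp
        L.subtype
      map_add' := fun a b => by
        refine LinearMap.ext fun z => ?_
        simp only [LinearMap.comp_apply, LinearMap.add_apply, LinearMap.mulLeft_apply,
          Submodule.coe_add, add_mul, map_add]
      map_smul' := fun c a => by
        refine LinearMap.ext fun z => ?_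
        simp only [LinearMap.comp_apply, LinearMap.smul_apply, LinearMap.mulLeft_apply,
          Submodule.coe_smul, smul_mul_assoc, map_smul, RingHom.id_apply] }
  have hinj : Function.Injective Φ := by
    rw [injective_iff_map_eq_zero]
    intro a ha
    refine Subtype.ext (hnd a a.2 fun z hz => ?_)
    exact LinearMap.congr_fun ha ⟨z, hz⟩
  have hsurj : Function.Surjective Φ :=
    (LinearMap.injective_iff_surjective_of_finrank_eq_finrank
      (Subspace.dual_finrank_eq).symm).1 hinj
  obtain ⟨a, ha⟩ := hsurj ψ
  have h1 : ad K e (ad K e (a : End K T)) = 0 := by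
    refine hnd _ (hst _ (hst _ a.2)) fun z hz => ?_
    rw [← trace_ad]
    have h2 : ψ (A ⟨z, hz⟩) = 0 := by
      have h3 : ψ (A ⟨z, hz⟩) ∈ (LinearMap.range A).map ψ :=
        Submodule.mem_map_of_mem (LinearMap.mem_range_self A _)
      rw [hψ0, Submodule.mem_bot] at h3
      exact h3
    rw [← ha] at h2
    exact h2
  have h2 := trace_zero hen h1
  apply hψ
  rw [← ha]
  change LinearMap.trace K T ((a : End K T) * e) = 0
  rw [LinearMap.trace_mul_comm]
  exact h2

end End

end Pool.Agent.Y126.JB
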