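import Mathlib
import Pool.Agent.Y126.JB.JM

/-!
# The spectrum of the neutral element
-/

set_option linter.unusedSectionVars false

namespace Pool.Agent.Y126.JB

open Module

variable {K : Type*} [Field K] [CharZero K] {T : Type*} [AddCommGroup T] [Module K T]
  [FiniteDimensional K T]

/-- The kernel of `e` in the image of `e ^ j`. The quotient by the next one counts the Jordan blocks
of size `j + 1`. -/
def Kj (e : End K T) (j : ℕ) : Submodule K T := LinearMap.ker e ⊓ LinearMap.range (e ^ j)

/-- generalized eigenspaces -/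
abbrev gE (h : End K T) (a : K) : Submodule K T := Module.End.maxGenEigenspace h a

theorem mem_gE {h : End K T} {a : K} {v : T} :
    v ∈ gE h a ↔ ∃ n : ℕ, ((h - a • 1) ^ n) v = 0 := by
  rw [Module.End.mem_maxGenEigenspace]

theorem gE_of {h : End K T} {a : K} {v : T} (hv : h v - a • v ∈ gE h a) : v ∈ gE h a := by
  obtain ⟨n, hn⟩ := mem_gE.1 hv
  refine mem_gE.2 ⟨n + 1, ?_⟩
  rw [pow_succ, Module.End.mul_apply, LinearMap.sub_apply, LinearMap.smul_apply,
    Module.End.one_apply]
  exact hn

/-- induction for generalized eigenvectors -/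
theorem gE_ind {h : End K T} {a : K} {p : T → Prop} (h0 : p 0)
    (h1 : ∀ v, v ∈ gE h a → p (h v - a • v) → p v) {v : T} (hv : v ∈ gE h a) : p v := by
  obtain ⟨n, hn⟩ := mem_gE.1 hv
  clear hv
  induction n generalizing v with
  | zero =>
    rw [pow_zero, Module.End.one_apply] at hn
    rw [hn]
    exact h0
  | succ n ih =>
    have h2 : ((h - a • 1) ^ n) (h v - a • v) = 0 := by
      rw [pow_succ, Module.End.mul_apply, LinearMap.sub_apply, LinearMap.smul_apply,
        Module.End.one_apply] at hn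
      exact hn
    exact h1 v (mem_gE.2 ⟨n + 1, hn⟩) (ih h2)

theorem exists_eigvec {h : End K T} {a : K} (h1 : gE h a ≠ ⊥) : ∃ v, v ≠ 0 ∧ h v = a • v := by
  by_contra hcon
  push Not at hcon
  apply h1
  rw [eq_bot_iff]
  intro v hv
  rw [Submodule.mem_bot]
  refine gE_ind (p := fun v : T => v = 0) rfl (fun v _ h2 => ?_) hv
  by_contra hv0
  exact hcon v hv0 (sub_eq_zero.1 h2)

/-- Products of generalized eigenvectors. -/
theorem gE_mul {h z : End K T} {a b : K} (hz : z ∈ gE (ad K h) b) {v : T} (hv : v ∈ gE h a) :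
    z v ∈ gE h (a + b) := by
  revert v
  refine gE_ind (p := fun z : End K T => ∀ {v}, v ∈ gE h a → z v ∈ gE h (a + b)) ?_ ?_ hz
  · intro v _
    rw [LinearMap.zero_apply]
    exact Submodule.zero_mem _
  · intro z _ hz' v hv
    refine gE_ind (p := fun v => z v ∈ gE h (a + b)) ?_ ?_ hv
    · rw [map_zero]
      exact Submodule.zero_mem _
    · intro v hv hv'
      refine gE_of ?_
      have h1 := Submodule.add_mem _ (hz' hv) hv'
      have h2 : h (z v) - (a + b) • z v = (ad K h z - b • z) v + z (h v - a • v) := by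
        rw [ad_apply, LinearMap.sub_apply, LinearMap.sub_apply, Module.End.mul_apply,
          Module.End.mul_apply, LinearMap.smul_apply, map_sub, map_smul]
        module
      rw [h2]
      exact h1

theorem gE_mul' {h z y : End K T} {a b : K} (hz : z ∈ gE (ad K h) b) (hy : y ∈ gE (ad K h) a) :
    z * y ∈ gE (ad K h) (a + b) := by
  revert y
  refine gE_ind (p := fun z : End K T => ∀ {y}, y ∈ gE (ad K h) a → z * y ∈ gE (ad K h) (a + b))
    ?_ ?_ hz
  · intro y _
    rw [zero_mul]
    exact Submodule.zero_mem _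
  · intro z _ hz' y hy
    refine gE_ind (p := fun y : End K T => z * y ∈ gE (ad K h) (a + b)) ?_ ?_ hy
    · rw [mul_zero]
      exact Submodule.zero_mem _
    · intro y hy hy'
      refine gE_of ?_
      have h1 := Submodule.add_mem _ (hz' hy) hy'
      have h2 : ad K h (z * y) - (a + b) • (z * y) = (ad K h z - b • z) * y +
          z * (ad K h y - a • y) := by
        rw [ad_mul, sub_mul, mul_sub, smul_mul_assoc, mul_smul_comm]
        module
      rw [h2]
      exact h1

theorem gE_br {h z y : End K T} {a b : K} (hz : z ∈ gE (ad K h) b) (hy : y ∈ gE (ad K h) a) :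
    z * y - y * z ∈ gE (ad K h) (a + b) := by
  refine Submodule.sub_mem _ (gE_mul' hz hy) ?_
  rw [add_comm]
  exact gE_mul' hy hz

/-- Orthogonality of generalized eigenspaces. -/
theorem gE_orth {ω : T →ₗ[K] T →ₗ[K] K} {h : End K T} (hsk : ∀ u w, ω (h u) w + ω u (h w) = 0)
    {a b : K} (hab : a + b ≠ 0) {v w : T} (hv : v ∈ gE h a) (hw : w ∈ gE h b) : ω v w = 0 := by
  revert w
  refine gE_ind (p := fun v => ∀ {w}, w ∈ gE h b → ω v w = 0) ?_ ?_ hv
  · intro w _
    rw [map_zero, LinearMap.zero_apply]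
  · intro v _ hv' w hw
    refine gE_ind (p := fun w => ω v w = 0) (map_zero _) ?_ hw
    intro w hw hw'
    have h1 := hv' hw
    have h2 := hsk v w
    rw [map_sub, LinearMap.sub_apply, map_smul, LinearMap.smul_apply, smul_eq_mul] at h1
    rw [map_sub, map_smul, smul_eq_mul] at hw'
    have h3 : (a + b) * ω v w = 0 := by linear_combination h2 - h1 - hw'
    exact (mul_eq_zero.1 h3).resolve_left hab

variable {e f h : End K T} (hh : h = ad K e f) (hhe : ad K h e = (2 : K) • e)

include hhe in
theorem h_pow (j : ℕ) : h * e ^ j = e ^ j * h + (2 * j : K) • e ^ j := by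
  have h1 : h * e = e * h + (2 : K) • e := by
    rw [ad_apply] at hhe
    rw [← hhe]
    abel
  induction j with
  | zero => simp
  | succ j ih =>
    calc h * e ^ (j + 1) = h * e ^ j * e := by rw [pow_succ, mul_assoc]
      _ = (e ^ j * h + (2 * j : K) • e ^ j) * e := by rw [ih]
      _ = e ^ j * (h * e) + (2 * j : K) • (e ^ j * e) := by
        rw [add_mul, mul_assoc, smul_mul_assoc]
      _ = _ := by
        rw [h1, mul_add, mul_smul_comm, ← mul_assoc, ← pow_succ]
        push_cast
        module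

include hh hhe in
theorem e_pow_f (j : ℕ) : e ^ (j + 1) * f - f * e ^ (j + 1) =
    ((j + 1 : ℕ) : K) • (h * e ^ j - (j : K) • e ^ j) := by
  have h0 : e * f = f * e + h := by rw [hh, ad_apply]; abel
  induction j with
  | zero =>
    simp [h0]
  | succ j ih =>
    have h1 : e ^ (j + 1) * f = f * e ^ (j + 1) +
        ((j + 1 : ℕ) : K) • (h * e ^ j - (j : K) • e ^ j) := by
      rw [← ih]
      abel
    have h2 : e * (h * e ^ j) = h * e ^ (j + 1) - (2 : K) • e ^ (j + 1) := by
      have h3 : h * e = e * h + (2 : K) • e := by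
        rw [ad_apply] at hhe
        rw [← hhe]
        abel
      have h4 : h * e ^ (j + 1) = e * (h * e ^ j) + (2 : K) • e ^ (j + 1) := by
        rw [pow_succ' e j, ← mul_assoc, h3, add_mul, smul_mul_assoc, mul_assoc]
      rw [h4, add_sub_cancel_right]
    calc e ^ (j + 1 + 1) * f - f * e ^ (j + 1 + 1)
        = e * (e ^ (j + 1) * f) - f * e ^ (j + 1 + 1) := by rw [← mul_assoc, ← pow_succ']
      _ = e * f * e ^ (j + 1) + ((j + 1 : ℕ) : K) • (e * (h * e ^ j) - (j : K) • e ^ (j + 1)) -
          f * e ^ (j + 1 + 1) := by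
        rw [h1, mul_add, mul_smul_comm, mul_sub, mul_smul_comm, ← pow_succ', ← mul_assoc]
      _ = _ := by
        rw [h2, h0, add_mul, mul_assoc f, ← pow_succ']
        push_cast
        module

theorem mem_Kj {e : End K T} {j : ℕ} {x : T} : x ∈ Kj e j ↔ e x = 0 ∧ ∃ u, (e ^ j) u = x := by
  rw [Kj, Submodule.mem_inf, LinearMap.mem_ker, LinearMap.mem_range]

include hh hhe in
theorem Kj_step {j : ℕ} {x : T} (hx : x ∈ Kj e j) : h x - (j : K) • x ∈ Kj e (j + 1) := by
  obtain ⟨h1, u, rfl⟩ := mem_Kj.1 hx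
  have hhe' : ∀ v, h (e v) = e (h v) + (2 : K) • e v := by
    intro v
    have h2 := LinearMap.congr_fun hhe v
    rw [ad_apply, LinearMap.sub_apply, Module.End.mul_apply, Module.End.mul_apply,
      LinearMap.smul_apply] at h2
    rw [← h2]
    abel
  refine mem_Kj.2 ⟨?_, ?_⟩
  · have h2 := hhe' ((e ^ j) u)
    rw [h1, map_zero, smul_zero, add_zero] at h2
    rw [map_sub, map_smul, h1, ← h2, smul_zero, sub_zero]
  · have h2 := LinearMap.congr_fun (e_pow_f hh hhe j) u
    rw [LinearMap.sub_apply, Module.End.mul_apply, Module.End.mul_apply, LinearMap.smul_apply,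
      LinearMap.sub_apply, Module.End.mul_apply, LinearMap.smul_apply] at h2
    have h3 : (e ^ (j + 1)) u = 0 := by
      rw [pow_succ', Module.End.mul_apply, h1]
    rw [h3, map_zero, sub_zero] at h2
    have h4 : ((j + 1 : ℕ) : K) ≠ 0 := Nat.cast_ne_zero.2 (Nat.succ_ne_zero j)
    refine ⟨((j + 1 : ℕ) : K)⁻¹ • f u, ?_⟩
    rw [map_smul, h2, smul_smul, inv_mul_cancel₀ h4, one_smul]

include hh hhe in
/-- The eigenvalues on the kernel. -/
theorem eig_ker {D : ℕ} (hD : e ^ (D + 1) = 0) {x : T} (hx0 : x ≠ 0) (hex : e x = 0) {a : K}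
    (hx : h x = a • x) : ∃ j : ℕ, j ≤ D ∧ a = j ∧ Kj e j ≠ Kj e (j + 1) := by
  have h0 : x ∈ Kj e 0 := mem_Kj.2 ⟨hex, x, by rw [pow_zero, Module.End.one_apply]⟩
  have hbig : ∀ j, D < j → x ∉ Kj e j := by
    intro j hj hxj
    obtain ⟨-, u, hu⟩ := mem_Kj.1 hxj
    apply hx0
    obtain ⟨i, rfl⟩ := Nat.exists_eq_add_of_lt hj
    rw [← hu, show D + i + 1 = i + (D + 1) by omega, pow_add, hD, mul_zero, LinearMap.zero_apply]
  obtain ⟨j, hj, hj'⟩ : ∃ j, x ∈ Kj e j ∧ x ∉ Kj e (j + 1) := by
    by_contra hcon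
    push Not at hcon
    have h1 : ∀ j, x ∈ Kj e j := by
      intro j
      induction j with
      | zero => exact h0
      | succ j ih => exact hcon j ih
    exact hbig (D + 1) (Nat.lt_succ_self D) (h1 _)
  refine ⟨j, ?_, ?_, fun h => hj' (h ▸ hj)⟩
  · by_contra hlt
    exact hbig j (not_le.1 hlt) hj
  · by_contra ha
    have h1 := Kj_step hh hhe hj
    rw [hx, ← sub_smul] at h1
    exact hj' ((Submodule.smul_mem_iff _ (sub_ne_zero.2 ha)).1 h1)

include hhe in
theorem h_pow_apply {v : T} {a : K} (hv : h v = a • v) (i : ℕ) :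
    h ((e ^ i) v) = (a + 2 * i) • (e ^ i) v := by
  have h1 := LinearMap.congr_fun (h_pow hhe i) v
  rw [LinearMap.add_apply, Module.End.mul_apply, Module.End.mul_apply, LinearMap.smul_apply, hv,
    map_smul] at h1
  rw [h1]
  module

include hh hhe in
/-- The eigenvalues. -/
theorem eig_all {D : ℕ} (hD : e ^ (D + 1) = 0) {v : T} (hv0 : v ≠ 0) {a : K}
    (hv : h v = a • v) : ∃ j i : ℕ, j ≤ D ∧ a = j - 2 * i ∧ Kj e j ≠ Kj e (j + 1) := by
  classical
  have hex : ∃ i, (e ^ i) v = 0 := ⟨D + 1, by rw [hD, LinearMap.zero_apply]⟩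
  have h1 := Nat.find_spec hex
  have h2 : Nat.find hex ≠ 0 := by
    intro h
    rw [h, pow_zero, Module.End.one_apply] at h1
    exact hv0 h1
  obtain ⟨i, hi⟩ := Nat.exists_eq_succ_of_ne_zero h2
  have h3 : (e ^ i) v ≠ 0 := Nat.find_min hex (by omega)
  rw [hi, Nat.succ_eq_add_one, pow_succ', Module.End.mul_apply] at h1
  obtain ⟨j, hj, hja, hjK⟩ := eig_ker hh hhe hD h3 h1 (h_pow_apply hhe hv i)
  exact ⟨j, i, hj, by rw [← hja]; ring, hjK⟩

/-- All Jordan blocks of size greater than one have even size, there are blocks of size one, and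
there is exactly one block of the largest size `D + 1`. -/
structure Typ (e : End K T) (D : ℕ) : Prop where
  odd : Odd D
  top : e ^ (D + 1) = 0
  one : finrank K (LinearMap.range (e ^ D)) = 1
  even : ∀ j, 2 ≤ j → Even j → Kj e j = Kj e (j + 1)
  triv : Kj e 0 ≠ Kj e 1

variable {D : ℕ} (ht : Typ e D)

include hh hhe ht in
theorem Typ.val {a : K} (ha : gE h a ≠ ⊥) : (∃ i : ℕ, a = -(2 * i)) ∨
    ∃ m : ℤ, a = 2 * m + 1 ∧ m ≤ D / 2 := by
  obtain ⟨v, hv0, hv⟩ := exists_eigvec ha
  obtain ⟨j, i, hj, hja, hjK⟩ := eig_all hh hhe ht.top hv0 hv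
  rcases Nat.even_or_odd j with hje | hjo
  · left
    rcases Nat.lt_or_ge j 2 with h2 | h2
    · have h3 : j = 0 := by
        obtain ⟨r, hr⟩ := hje
        omega
      exact ⟨i, by rw [hja, h3]; simp⟩
    · exact absurd (ht.even j h2 hje) hjK
  · right
    obtain ⟨r, hr⟩ := hjo
    refine ⟨(r : ℤ) - i, ?_, ?_⟩
    · rw [hja, hr]
      push_cast
      ring
    · omega

theorem dual_ne {ω : T →ₗ[K] T →ₗ[K] K} (hnd : ∀ u, (∀ v, ω u v = 0) → u = 0)
    (hsk : ∀ u w, ω (h u) w + ω u (h w) = 0) {a : K} (ha : gE h a ≠ ⊥) : gE h (-a) ≠ ⊥ := by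
  intro hcon
  obtain ⟨v, hv0, hv⟩ := exists_eigvec ha
  have hinj : Function.Injective (h + a • (1 : End K T)) := by
    rw [injective_iff_map_eq_zero]
    intro u hu
    have h1 : u ∈ gE h (-a) := by
      refine mem_gE.2 ⟨1, ?_⟩
      rw [pow_one, neg_smul, sub_neg_eq_add]
      exact hu
    rw [hcon, Submodule.mem_bot] at h1
    exact h1
  have hsurj := LinearMap.surjective_of_injective hinj
  apply hv0
  refine hnd v fun y => ?_
  obtain ⟨z, rfl⟩ := hsurj y
  have h1 := hsk v z
  rw [hv, map_smul, LinearMap.smul_apply, smul_eq_mul] at h1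
  rw [LinearMap.add_apply, LinearMap.smul_apply, Module.End.one_apply, map_add, map_smul,
    smul_eq_mul]
  linear_combination h1

include hh hhe ht in
theorem Typ.val' {ω : T →ₗ[K] T →ₗ[K] K} (hnd : ∀ u, (∀ v, ω u v = 0) → u = 0)
    (hsk : ∀ u w, ω (h u) w + ω u (h w) = 0) {a : K} (ha : gE h a ≠ ⊥) :
    a = 0 ∨ ∃ m : ℤ, a = 2 * m + 1 ∧ m ≤ D / 2 := by
  rcases ht.val hh hhe ha with ⟨i, hi⟩ | h1
  · rcases ht.val hh hhe (dual_ne hnd hsk ha) with ⟨i', hi'⟩ | ⟨m, hm, -⟩
    · left
      have h2 : ((i + i' : ℕ) : K) = 0 := by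
        have h3 : (2 : K) * ((i + i' : ℕ) : K) = 0 := by
          push_cast
          linear_combination hi + hi'
        exact (mul_eq_zero.1 h3).resolve_left two_ne_zero
      rw [Nat.cast_eq_zero] at h2
      have h4 : i = 0 := by omega
      rw [hi, h4]
      simp
    · exfalso
      have h2 : ((2 * (i : ℤ) - (2 * m + 1) : ℤ) : K) = 0 := by
        push_cast
        linear_combination hm + hi
      rw [Int.cast_eq_zero] at h2
      omega
  · exact Or.inr h1

include hh hhe ht in
theorem Typ.gE_top_le : gE h (D : K) ≤ LinearMap.range (e ^ D) := by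
  have h1 : gE h ((D : K) + 2) = ⊥ := by
    by_contra hne
    obtain ⟨v, hv0, hv⟩ := exists_eigvec hne
    obtain ⟨j, i, hj, hja, -⟩ := eig_all hh hhe ht.top hv0 hv
    have h2 : ((D + 2 + 2 * i : ℕ) : K) = (j : ℕ) := by
      push_cast
      linear_combination hja
    rw [Nat.cast_inj] at h2
    omega
  have he2 : e ∈ gE (ad K h) 2 := by
    refine mem_gE.2 ⟨1, ?_⟩
    rw [pow_one, LinearMap.sub_apply, hhe, LinearMap.smul_apply, Module.End.one_apply, sub_self]
  have h2 : ∀ j, j ≤ D → gE h (D : K) ≤ Kj e j := by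
    intro j
    induction j with
    | zero =>
      intro _ v hv
      refine mem_Kj.2 ⟨?_, v, by rw [pow_zero, Module.End.one_apply]⟩
      have h3 := gE_mul he2 hv
      rw [h1, Submodule.mem_bot] at h3
      exact h3
    | succ j ih =>
      intro hj v hv
      have hjD : (D : K) ≠ j := fun h => by
        have := Nat.cast_inj.1 h
        omega
      -- `h - j` is bijective on the generalized eigenspace
      have hst : ∀ x ∈ gE h (D : K), (h - (j : K) • (1 : End K T)) x ∈ gE h (D : K) := by
        intro x hx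
        have h4 : h x ∈ gE h (D : K) :=
          Module.End.mapsTo_maxGenEigenspace_of_comm rfl _ hx
        rw [LinearMap.sub_apply, LinearMap.smul_apply, Module.End.one_apply]
        exact Submodule.sub_mem _ h4 (Submodule.smul_mem _ _ hx)
      let g : gE h (D : K) →ₗ[K] gE h (D : K) := (h - (j : K) • (1 : End K T)).restrict hst
      have hinj : Function.Injective g := by
        rw [injective_iff_map_eq_zero]
        intro x hx
        have h5 : h (x : T) = (j : K) • (x : T) := by
          have h6 : (h - (j : K) • (1 : End K T)) (x : T) = 0 := congrArg Subtype.val hx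
          rw [LinearMap.sub_apply, LinearMap.smul_apply, Module.End.one_apply] at h6
          exact sub_eq_zero.1 h6
        apply Subtype.ext
        have h7 : (x : T) ∈ gE h (j : K) := mem_gE.2 ⟨1, by
          rw [pow_one, LinearMap.sub_apply, LinearMap.smul_apply, Module.End.one_apply, h5,
            sub_self]⟩
        have h8 := Module.End.disjoint_genEigenspace h hjD ⊤ ⊤
        exact (Submodule.disjoint_def.1 h8) _ x.2 h7
      obtain ⟨x, hx⟩ := LinearMap.surjective_of_injective hinj ⟨v, hv⟩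
      have h9 : h (x : T) - (j : K) • (x : T) = v := by
        have h10 : (h - (j : K) • (1 : End K T)) (x : T) = v := congrArg Subtype.val hx
        rw [← h10, LinearMap.sub_apply, LinearMap.smul_apply, Module.End.one_apply]
      rw [← h9]
      exact Kj_step hh hhe (ih (by omega) x.2)
  intro v hv
  obtain ⟨-, u, hu⟩ := mem_Kj.1 (h2 D le_rfl hv)
  exact ⟨u, hu⟩

include hh hhe ht in
theorem Typ.gE_top_ge : LinearMap.range (e ^ D) ≤ gE h (D : K) := by
  rintro _ ⟨u, rfl⟩
  have h1 : (e ^ D) u ∈ Kj e D := mem_Kj.2 ⟨by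
    rw [← Module.End.mul_apply, ← pow_succ', ht.top, LinearMap.zero_apply], u, rfl⟩
  have h2 := Kj_step hh hhe h1
  obtain ⟨-, w, hw⟩ := mem_Kj.1 h2
  rw [ht.top, LinearMap.zero_apply] at hw
  refine mem_gE.2 ⟨1, ?_⟩
  rw [pow_one, LinearMap.sub_apply, LinearMap.smul_apply, Module.End.one_apply, ← hw]

include hh hhe ht in
theorem Typ.finrank_top : finrank K (gE h (D : K)) = 1 := by
  rw [le_antisymm (ht.gE_top_le hh hhe) (ht.gE_top_ge hh hhe)]
  exact ht.one

include hh hhe ht in
theorem Typ.zero_ne : gE h (0 : K) ≠ ⊥ := by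
  intro hcon
  apply ht.triv
  have hinj : Function.Injective h := by
    rw [injective_iff_map_eq_zero]
    intro u hu
    have h1 : u ∈ gE h (0 : K) := mem_gE.2 ⟨1, by rw [pow_one, zero_smul, sub_zero, hu]⟩
    rw [hcon, Submodule.mem_bot] at h1
    exact h1
  refine le_antisymm ?_ ?_
  · intro v hv
    have hst : ∀ x ∈ Kj e 0, h x ∈ Kj e 0 := by
      intro x hx
      have h1 := Kj_step hh hhe hx
      rw [Nat.cast_zero, zero_smul, sub_zero] at h1
      obtain ⟨h2, -⟩ := mem_Kj.1 h1
      exact mem_Kj.2 ⟨h2, h x, by rw [pow_zero, Module.End.one_apply]⟩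
    have hinj' : Function.Injective (h.restrict hst) := by
      intro x y hxy
      exact Subtype.ext (hinj (congrArg Subtype.val hxy))
    obtain ⟨x, hx⟩ := LinearMap.surjective_of_injective hinj' ⟨v, hv⟩
    have h3 : h (x : T) = v := congrArg Subtype.val hx
    have h1 := Kj_step hh hhe x.2
    rw [Nat.cast_zero, zero_smul, sub_zero, h3] at h1
    exact h1
  · intro v hv
    exact mem_Kj.2 ⟨(mem_Kj.1 hv).1, v, by rw [pow_zero, Module.End.one_apply]⟩

theorem finrank_neg {ω : T →ₗ[K] T →ₗ[K] K} (hnd : ∀ u, (∀ v, ω u v = 0) → u = 0)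
    (hsk : ∀ u w, ω (h u) w + ω u (h w) = 0) (htop : ⨆ a, gE h a = ⊤) (a : K) :
    finrank K (gE h (-a)) ≤ finrank K (gE h a) := by
  let Φ : gE h (-a) →ₗ[K] Dual K (gE h a) :=
    { toFun := fun v => (ω (v : T)).comp (gE h a).subtype
      map_add' := fun u v => by
        refine LinearMap.ext fun z => ?_
        simp only [LinearMap.comp_apply, LinearMap.add_apply, Submodule.coe_add, map_add]
      map_smul' := fun c u => by
        refine LinearMap.ext fun z => ?_
        simp only [LinearMap.comp_apply, LinearMap.smul_apply, Submodule.coe_smul, map_smul,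
          RingHom.id_apply] }
  have hinj : Function.Injective Φ := by
    rw [injective_iff_map_eq_zero]
    intro v hv
    apply Subtype.ext
    refine hnd _ fun y => ?_
    have hle : (⨆ b, gE h b) ≤ LinearMap.ker (ω (v : T)) := by
      rw [iSup_le_iff]
      intro b w hw
      rw [LinearMap.mem_ker]
      by_cases hb : b = a
      · subst hb
        exact LinearMap.congr_fun hv ⟨w, hw⟩
      · refine gE_orth hsk (fun h => hb ?_) v.2 hw
        linear_combination h
    rw [htop] at hle
    exact hle (x := y) Submodule.mem_top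
  exact (LinearMap.finrank_le_finrank_of_injective hinj).trans_eq Subspace.dual_finrank_eq

end Pool.Agent.Y126.JB
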