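import Mathlib
import Pool.Agent.Y126.JB.Spec
import Pool.Agent.Y126.JB.Nondeg
import Pool.Agent.TH118.SG.Full
import Pool.Agent.TH118.SC.Ann

/-!
# Nilpotent elements with Jordan blocks of even size and of size one
-/

set_option linter.unusedSectionVars false

namespace Pool.Agent.Y126.JB

open Module Pool.Agent.W522.U Pool.Agent.TH118.CR

variable {K : Type} [Field K] [CharZero K] [IsAlgClosed K] {T : Type} [AddCommGroup T]
  [Module K T] [FiniteDimensional K T] {Γ : Type} [Group Γ] {R : Representation K Γ T}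
  {L : Submodule K (End K T)} {ω : T →ₗ[K] T →ₗ[K] K} {χ : Γ →* K}

/-- odd integers -/
def IsOdd (a : K) : Prop := ∃ m : ℤ, a = 2 * m + 1

/-- even integers -/
def IsEven (a : K) : Prop := ∃ m : ℤ, a = 2 * m

theorem not_both {a : K} (h1 : IsOdd a) (h2 : IsEven a) : False := by
  obtain ⟨m, hm⟩ := h1
  obtain ⟨n, hn⟩ := h2
  have h3 : ((2 * m + 1 - 2 * n : ℤ) : K) = 0 := by
    push_cast
    rw [← hm, ← hn, sub_self]
  rw [Int.cast_eq_zero] at h3
  omega

theorem even_zero : IsEven (0 : K) := ⟨0, by simp⟩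

theorem IsOdd.ne_zero {a : K} (h : IsOdd a) : a ≠ 0 := by
  rintro rfl
  exact not_both h even_zero

theorem odd_cast {D : ℕ} (h : Odd D) : IsOdd (D : K) := by
  obtain ⟨r, rfl⟩ := h
  exact ⟨r, by push_cast; ring⟩

theorem odd_neg {a : K} (h : IsOdd a) : IsOdd (-a) := by
  obtain ⟨m, rfl⟩ := h
  exact ⟨-m - 1, by push_cast; ring⟩

theorem even_neg {a : K} (h : IsEven a) : IsEven (-a) := by
  obtain ⟨m, rfl⟩ := h
  exact ⟨-m, by push_cast; ring⟩

theorem odd_odd {a b : K} (ha : IsOdd a) (hb : IsOdd b) : IsEven (a + b) := by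
  obtain ⟨m, rfl⟩ := ha
  obtain ⟨n, rfl⟩ := hb
  exact ⟨m + n + 1, by push_cast; ring⟩

theorem odd_even {a b : K} (ha : IsOdd a) (hb : IsEven b) : IsOdd (a + b) := by
  obtain ⟨m, rfl⟩ := ha
  obtain ⟨n, rfl⟩ := hb
  exact ⟨m + n, by push_cast; ring⟩

/-- **The main lemma**, for an element whose eigenvalues are zero and odd integers. -/
theorem core (halt : ∀ v, ω v v = 0) (hnd : ∀ u, (∀ v, ω u v = 0) → u = 0)
    (hconj : ∀ g : Γ, ∀ Y ∈ L, R g * Y * R g⁻¹ ∈ L)
    (hbr : ∀ Y ∈ L, ∀ Z ∈ L, Y * Z - Z * Y ∈ L)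
    (hsp : ∀ Y ∈ L, ∀ u w, ω (Y u) w + ω u (Y w) = 0)
    (hX : SI R (⊤ : Submodule K T)) {h e : End K T} (hh : h ∈ L) (he : e ∈ L) (he0 : e ≠ 0)
    (hhe : ad K h e = (2 : K) • e)
    (hval : ∀ a : K, gE h a ≠ ⊥ → a = 0 ∨ IsOdd a) (h0 : gE h (0 : K) ≠ ⊥)
    {d : K} (hd : IsOdd d) (hd1 : finrank K (gE h d) = 1) :
    ∃ x ∈ L, x * x = 0 ∧ x ≠ 0 ∧ finrank K ((⊤ : Submodule K T).map x) ≤ 2 := by
  classical
  have htop : ⨆ a, gE h a = ⊤ := Module.End.iSup_maxGenEigenspace_eq_top h
  have hsk := hsp h hh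
  have hskew : ∀ x y, ω x y = -ω y x := by
    intro x y
    have h1 := halt (x + y)
    rw [map_add, map_add, LinearMap.add_apply, LinearMap.add_apply, halt, halt, zero_add,
      add_zero] at h1
    exact eq_neg_of_add_eq_zero_left (by rw [add_comm]; exact h1)
  -- the decomposition of `L`
  have hL : L = ⨆ μ : K, L ⊓ gE (ad K h) μ :=
    Submodule.eq_iSup_inf_genEigenspace (f := ad K h) (p := L) ⊤
      (fun x hx => hbr h hh x hx) (Module.End.iSup_maxGenEigenspace_eq_top (ad K h))
  -- the weights of nonzero elements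
  have hext : ∀ {z : End K T}, z ≠ 0 → ∃ a : K, ∃ v ∈ gE h a, z v ≠ 0 := by
    intro z hz
    by_contra hcon
    push Not at hcon
    apply hz
    have h1 : (⨆ a, gE h a) ≤ LinearMap.ker z := iSup_le fun a v hv => hcon a v hv
    rw [htop, top_le_iff, LinearMap.ker_eq_top] at h1
    exact h1
  have hne : ∀ {a : K} {v : T}, v ∈ gE h a → v ≠ 0 → a = 0 ∨ IsOdd a := by
    intro a v hv hv0
    exact hval a ((Submodule.ne_bot_iff _).2 ⟨v, hv, hv0⟩)
  have hwt : ∀ {μ : K} {z : End K T}, z ∈ gE (ad K h) μ → z ≠ 0 → IsEven μ ∨ IsOdd μ := by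
    intro μ z hz hz0
    obtain ⟨a, v, hv, hzv⟩ := hext hz0
    have hv0 : v ≠ 0 := fun h => hzv (by rw [h, map_zero])
    have h1 := gE_mul hz hv
    have e1 : μ = -a + (a + μ) := by ring
    rcases hne hv hv0 with ha | ha <;> rcases hne h1 hzv with hb | hb
    · rw [ha, zero_add] at hb
      left
      rw [hb]
      exact even_zero
    · rw [ha, zero_add] at hb
      exact Or.inr hb
    · right
      rw [e1, hb, add_zero]
      exact odd_neg ha
    · left
      rw [e1]
      exact odd_odd (odd_neg ha) hb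
  -- the vectors killed by the odd part
  let U : Submodule K T :=
    { carrier := {u | ∀ μ : K, IsOdd μ → ∀ z ∈ L ⊓ gE (ad K h) μ, z u = 0}
      zero_mem' := fun μ _ z _ => map_zero z
      add_mem' := fun {u v} hu hv μ hμ z hz => by
        rw [map_add, hu μ hμ z hz, hv μ hμ z hz, add_zero]
      smul_mem' := fun c u hu μ hμ z hz => by rw [map_smul, hu μ hμ z hz, smul_zero] }
  have hUst : ∀ y ∈ L, ∀ u ∈ U, y u ∈ U := by
    intro y hy u hu
    rw [hL] at hy
    refine Submodule.iSup_induction _ (motive := fun y => y u ∈ U) hy ?_ ?_ ?_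
    · intro ν y hy
      by_cases hy0 : y = 0
      · rw [hy0, LinearMap.zero_apply]
        exact U.zero_mem
      rcases hwt hy.2 hy0 with hν | hν
      · intro μ hμ z hz
        have h1 : z (y u) = y (z u) + (z * y - y * z) u := by
          rw [LinearMap.sub_apply, Module.End.mul_apply, Module.End.mul_apply]
          abel
        have h2 : z * y - y * z ∈ L ⊓ gE (ad K h) (ν + μ) :=
          ⟨hbr z hz.1 y hy.1, gE_br hz.2 hy.2⟩
        rw [h1, hu μ hμ z hz, map_zero, zero_add]
        refine hu _ ?_ _ h2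
        rw [add_comm]
        exact odd_even hμ hν
      · have h1 : y u = 0 := hu ν hν y hy
        rw [h1]
        exact U.zero_mem
    · rw [LinearMap.zero_apply]
      exact U.zero_mem
    · intro y z hy hz
      rw [LinearMap.add_apply]
      exact U.add_mem hy hz
  -- the odd part is not zero
  obtain ⟨μ₀, hμ₀, z₀, hz₀, hz₀0⟩ : ∃ μ : K, IsOdd μ ∧ ∃ z ∈ L ⊓ gE (ad K h) μ, z ≠ 0 := by
    by_contra hcon
    push Not at hcon
    apply he0
    refine Pool.Agent.TH118.SC.ann_space hX L hconj h0 ?_ he ?_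
    · intro y hy u hu
      rw [hL] at hy
      refine Submodule.iSup_induction _ (motive := fun y => y u ∈ gE h (0 : K)) hy ?_ ?_ ?_
      · intro ν y hy
        by_cases hy0 : y = 0
        · rw [hy0, LinearMap.zero_apply]
          exact Submodule.zero_mem _
        by_cases hyu : y u = 0
        · rw [hyu]
          exact Submodule.zero_mem _
        have h1 := gE_mul hy.2 hu
        rw [zero_add] at h1
        rcases hne h1 hyu with hν | hν
        · rwa [hν] at h1
        · exact absurd (hcon ν hν y hy) hy0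
      · rw [LinearMap.zero_apply]
        exact Submodule.zero_mem _
      · intro y z hy hz
        rw [LinearMap.add_apply]
        exact Submodule.add_mem _ hy hz
    · intro u hu
      have he2 : e ∈ gE (ad K h) 2 := by
        refine mem_gE.2 ⟨1, ?_⟩
        rw [pow_one, LinearMap.sub_apply, hhe, LinearMap.smul_apply, Module.End.one_apply, sub_self]
      have h1 := gE_mul he2 hu
      by_contra h2
      rcases hne h1 h2 with h3 | h3
      · rw [zero_add] at h3
        exact two_ne_zero h3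
      · rw [zero_add] at h3
        exact not_both h3 ⟨1, by simp⟩
  have hU : U = ⊥ := by
    by_contra hU
    apply hz₀0
    exact Pool.Agent.TH118.SC.ann_space hX L hconj hU hUst hz₀.1 fun u hu => hu μ₀ hμ₀ z₀ hz₀
  -- the vector
  obtain ⟨v, hv, hv0⟩ : ∃ v ∈ gE h d, v ≠ 0 := by
    refine Submodule.exists_mem_ne_zero_of_ne_bot fun h1 => ?_
    rw [h1, finrank_bot] at hd1
    exact zero_ne_one hd1
  obtain ⟨x, hx, hxv⟩ : ∃ x ∈ L ⊓ gE (ad K h) (-d), x v ≠ 0 := by
    by_contra hcon
    push Not at hcon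
    apply hv0
    rw [← Submodule.mem_bot K, ← hU]
    intro μ hμ z hz
    by_contra hzv
    have h1 := gE_mul hz.2 hv
    rcases hne h1 hzv with h2 | h2
    · have h3 : μ = -d := by linear_combination h2
      rw [h3] at hz
      exact hzv (hcon z hz)
    · exact not_both h2 (odd_odd hd hμ)
  have hd0 := hd.ne_zero
  have hspan : ∀ w ∈ gE h d, ∃ c : K, c • v = w := by
    intro w hw
    obtain ⟨c, hc⟩ := (finrank_eq_one_iff_of_nonzero' (⟨v, hv⟩ : gE h d)
      (fun h => hv0 (congrArg Subtype.val h))).1 hd1 ⟨w, hw⟩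
    exact ⟨c, congrArg Subtype.val hc⟩
  have hkill : ∀ a : K, a ≠ 0 → a ≠ d → ∀ w ∈ gE h a, x w = 0 := by
    intro a ha0 had w hw
    by_contra hxw
    have hw0 : w ≠ 0 := fun h => hxw (by rw [h, map_zero])
    have h1 := gE_mul hx.2 hw
    have h2 := (hne hw hw0).resolve_left ha0
    rcases hne h1 hxw with h3 | h3
    · exact had (by linear_combination h3)
    · exact not_both h3 (odd_odd h2 (odd_neg hd))
  have hxx : x (x v) = 0 := by
    have h1 : x (x v) ∈ gE h (d + -d + -d) := gE_mul hx.2 (gE_mul hx.2 hv)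
    refine hnd _ fun y => ?_
    have hle : (⨆ b, gE h b) ≤ LinearMap.ker (ω (x (x v))) := by
      rw [iSup_le_iff]
      intro b w hw
      rw [LinearMap.mem_ker]
      by_cases hb : b = d
      · subst hb
        obtain ⟨c, rfl⟩ := hspan w hw
        have h2 := hsp x hx.1 (x v) v
        rw [halt, add_zero] at h2
        rw [map_smul, h2, smul_zero]
      · refine gE_orth hsk (fun h => hb ?_) h1 hw
        linear_combination h
    rw [htop] at hle
    exact hle (x := y) Submodule.mem_top
  refine ⟨x, hx.1, ?_, fun h => hxv (by rw [h, LinearMap.zero_apply]), ?_⟩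
  · have h1 : (⨆ a, gE h a) ≤ LinearMap.ker (x * x) := by
      rw [iSup_le_iff]
      intro a w hw
      rw [LinearMap.mem_ker, Module.End.mul_apply]
      by_cases ha : a = d
      · subst ha
        obtain ⟨c, rfl⟩ := hspan w hw
        rw [map_smul, map_smul, hxx, smul_zero]
      by_cases ha0 : a = 0
      · subst ha0
        have h2 := gE_mul hx.2 hw
        rw [zero_add] at h2
        refine hkill (-d) (neg_ne_zero.2 hd0) (fun h => hd0 ?_) _ h2
        have h3 : (2 : K) * d = 0 := by linear_combination -h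
        exact (mul_eq_zero.1 h3).resolve_left two_ne_zero
      · rw [hkill a ha0 ha w hw, map_zero]
    rw [htop, top_le_iff, LinearMap.ker_eq_top] at h1
    exact h1
  · have h1 : (⊤ : Submodule K T).map x ≤ Submodule.span K {x v} ⊔ gE h (-d) := by
      rw [← htop, Submodule.map_iSup, iSup_le_iff]
      rintro a _ ⟨w, hw, rfl⟩
      by_cases ha : a = d
      · subst ha
        obtain ⟨c, rfl⟩ := hspan w hw
        rw [map_smul]
        exact Submodule.mem_sup_left (Submodule.smul_mem _ _ (Submodule.mem_span_singleton_self _))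
      by_cases ha0 : a = 0
      · subst ha0
        have h2 := gE_mul hx.2 hw
        rw [zero_add] at h2
        exact Submodule.mem_sup_right h2
      · rw [hkill a ha0 ha w hw]
        exact Submodule.zero_mem _
    have h2 : finrank K (Submodule.span K {x v}) ≤ 1 := (finrank_span_singleton hxv).le
    have h3 : finrank K (gE h (-d)) ≤ 1 := by
      rw [← hd1]
      exact finrank_neg hnd hsk htop d
    have h4 := Submodule.finrank_mono h1
    have h5 := Submodule.finrank_add_le_finrank_add_finrank (Submodule.span K {x v}) (gE h (-d))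
    omega

/-- **A nilpotent element whose Jordan blocks have size one or even size, with blocks of size one
and with one block of the largest size, generates the symplectic Lie algebra.** -/
theorem full_of_typ (halt : ∀ v, ω v v = 0) (hnd : ∀ u, (∀ v, ω u v = 0) → u = 0)
    (hωR : ∀ g u v, ω (R g u) (R g v) = χ g * ω u v)
    (hconj : ∀ g : Γ, ∀ Y ∈ L, R g * Y * R g⁻¹ ∈ L)
    (hbr : ∀ Y ∈ L, ∀ Z ∈ L, Y * Z - Z * Y ∈ L)
    (hsp : ∀ Y ∈ L, ∀ u w, ω (Y u) w + ω u (Y w) = 0)
    (hX : SI R (⊤ : Submodule K T)) {e : End K T} (he : e ∈ L) {D : ℕ} (ht : Typ e D) :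
    ∀ u v, Pool.Agent.H204R3.SP.SS ω u v ∈ L := by
  have he0 : e ≠ 0 := by
    rintro rfl
    have h1 := ht.one
    obtain ⟨r, hr⟩ := ht.odd
    rw [zero_pow (by omega), LinearMap.range_zero, finrank_bot] at h1
    exact zero_ne_one h1
  obtain ⟨f, hf, hf2⟩ := jm hbr (fun y hy h => trace_nondeg hconj hbr hX hnd hsp hy h) he
    ⟨D + 1, ht.top⟩
  obtain ⟨h, hh⟩ : ∃ h, h = ad K e f := ⟨_, rfl⟩
  have hhe : ad K h e = (2 : K) • e := by
    have h1 : ad K h e = -ad K e h := by rw [ad_apply, ad_apply]; abel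
    rw [h1, hh, hf2, neg_smul, neg_neg]
  have hhL : h ∈ L := by rw [hh]; exact hbr e he f hf
  have hsk := hsp h hhL
  obtain ⟨x, hx, hxx, hx0, hxr⟩ := core halt hnd hconj hbr hsp hX hhL he he0 hhe
    (fun a ha => (ht.val' hh hhe hnd hsk ha).imp id fun ⟨m, hm, _⟩ => ⟨m, hm⟩)
    (ht.zero_ne hh hhe) (odd_cast ht.odd) (ht.finrank_top hh hhe)
  exact Pool.Agent.TH118.SG.full_of_N halt hnd hωR hconj hbr hsp hX hx hxx hx0 hxr

end Pool.Agent.Y126.JB
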