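import Mathlib
import Pool.Agent.Y126.JB.Spec

/-!
# Triples
-/

set_option linter.unusedSectionVars false

namespace Pool.Agent.Y126.JB

open Module

variable {K : Type*} [Field K] [CharZero K] {T : Type*} [AddCommGroup T] [Module K T]
  [FiniteDimensional K T]

theorem ad_ad {A : Type*} [Ring A] [Algebra K A] (e f : A) :
    ad K (ad K e) (ad K f) = ad K (ad K e f) := by
  refine LinearMap.ext fun x => ?_
  rw [ad_apply (ad K e) (ad K f), LinearMap.sub_apply, Module.End.mul_apply, Module.End.mul_apply]
  simp only [ad_apply]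
  noncomm_ring

theorem ad_smul' {A : Type*} [Ring A] [Algebra K A] (c : K) (e : A) :
    ad K (c • e) = c • ad K e := by
  refine LinearMap.ext fun x => ?_
  simp only [ad_apply, LinearMap.smul_apply, smul_mul_assoc, mul_smul_comm, smul_sub]

/-- gen. eigenvectors in a stable subspace -/
theorem exists_eig_in {V : Type*} [AddCommGroup V] [Module K V] [FiniteDimensional K V]
    {h : End K V} {a : K} (Q : Submodule K V) (hQ : ∀ x ∈ Q, h x ∈ Q) (hQa : Q ≤ gE h a)
    (hQ0 : Q ≠ ⊥) : ∃ x ∈ Q, x ≠ 0 ∧ h x = a • x := by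
  by_contra hcon
  push Not at hcon
  apply hQ0
  rw [eq_bot_iff]
  intro v hv
  rw [Submodule.mem_bot]
  have hva := hQa hv
  revert hv
  refine gE_ind (p := fun v : V => v ∈ Q → v = 0) (fun _ => rfl) (fun v _ h2 hv => ?_) hva
  by_contra hv0
  have h3 := h2 (Q.sub_mem (hQ v hv) (Q.smul_mem a hv))
  exact hcon v hv hv0 (sub_eq_zero.1 h3)

variable {e f h : End K T} (hh : h = ad K e f) (hhe : ad K h e = (2 : K) • e)

include hh hhe in
/-- In the kernel of `e` the eigenvalues of `h` are natural numbers. -/
theorem no_neg (hen : IsNilpotent e) {x : T} (hx0 : x ≠ 0) (hex : e x = 0) {a : K}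
    (hx : h x = a • x) : ∃ j : ℕ, a = j := by
  obtain ⟨D, hD⟩ := hen
  have hD' : e ^ (D + 1) = 0 := by rw [pow_succ, hD, zero_mul]
  obtain ⟨j, -, hj, -⟩ := eig_ker hh hhe hD' hx0 hex hx
  exact ⟨j, hj⟩

include hh hhe in
/-- **Jacobson-Morozov**: the whole triple. -/
theorem exists_f {L : Submodule K (End K T)} (hbr : ∀ Y ∈ L, ∀ Z ∈ L, Y * Z - Z * Y ∈ L)
    (he : e ∈ L) (hf : f ∈ L) (hen : IsNilpotent e) :
    ∃ f' ∈ L, h = ad K e f' ∧ ad K h f' = (-2 : K) • f' := by
  have hhL : h ∈ L := by rw [hh]; exact hbr e he f hf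
  -- the triple acting on the operators
  have hh' : ad K h = ad K (ad K e) (ad K f) := by rw [ad_ad, ← hh]
  have hhe' : ad K (ad K h) (ad K e) = (2 : K) • ad K e := by rw [ad_ad, hhe, ad_smul']
  have hen' : IsNilpotent (ad K e) := ad_nilpotent hen
  let Z : Submodule K (End K T) := L ⊓ LinearMap.ker (ad K e)
  have hcom : ∀ z, ad K e (ad K h z) = ad K h (ad K e z) - (2 : K) • ad K e z := by
    intro z
    have h1 := LinearMap.congr_fun hhe' z
    rw [ad_apply (ad K h), LinearMap.sub_apply, Module.End.mul_apply, Module.End.mul_apply,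
      LinearMap.smul_apply] at h1
    rw [← h1]
    abel
  have hZ : ∀ z ∈ Z, (ad K h + (2 : K) • (1 : End K (End K T))) z ∈ Z := by
    intro z hz
    have h2 : ad K e z = 0 := hz.2
    rw [LinearMap.add_apply, LinearMap.smul_apply, Module.End.one_apply]
    refine ⟨L.add_mem (hbr h hhL z hz.1) (L.smul_mem _ hz.1), LinearMap.mem_ker.2 ?_⟩
    rw [map_add, map_smul, hcom, h2, map_zero, smul_zero, sub_zero, add_zero]
  let g : Z →ₗ[K] Z := (ad K h + (2 : K) • (1 : End K (End K T))).restrict hZ
  have hinj : Function.Injective g := by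
    rw [injective_iff_map_eq_zero]
    intro z hz
    by_contra hz0
    have h1 : (ad K h + (2 : K) • (1 : End K (End K T))) (z : End K T) = 0 :=
      congrArg Subtype.val hz
    rw [LinearMap.add_apply, LinearMap.smul_apply, Module.End.one_apply] at h1
    have h2 : ad K h (z : End K T) = (-2 : K) • (z : End K T) := by
      rw [neg_smul]
      exact eq_neg_of_add_eq_zero_left h1
    obtain ⟨j, hj⟩ := no_neg (x := (z : End K T)) hh' hhe' hen'
      (fun h => hz0 (Subtype.ext h)) z.2.2 h2
    have h3 : ((j + 2 : ℕ) : K) = 0 := by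
      push_cast
      rw [← hj]
      ring
    rw [Nat.cast_eq_zero] at h3
    omega
  have hsurj := LinearMap.surjective_of_injective hinj
  have hc : ad K h f + (2 : K) • f ∈ Z := by
    refine ⟨L.add_mem (hbr h hhL f hf) (L.smul_mem _ hf), LinearMap.mem_ker.2 ?_⟩
    rw [map_add, map_smul, hcom, ← hh]
    rw [ad_apply h h, sub_self]
    module
  obtain ⟨c, hc'⟩ := hsurj ⟨_, hc⟩
  have h1 : ad K h (c : End K T) + (2 : K) • (c : End K T) = ad K h f + (2 : K) • f := by
    have h2 : (ad K h + (2 : K) • (1 : End K (End K T))) (c : End K T) = ad K h f + (2 : K) • f :=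
      congrArg Subtype.val hc'
    rw [← h2, LinearMap.add_apply, LinearMap.smul_apply, Module.End.one_apply]
  have h2 : ad K e (c : End K T) = 0 := c.2.2
  refine ⟨f - c, L.sub_mem hf c.2.1, ?_, ?_⟩
  · rw [map_sub, h2, sub_zero]
    exact hh
  · rw [map_sub]
    have h3 : ad K h f - ad K h (c : End K T) = (2 : K) • (c : End K T) - (2 : K) • f := by
      rw [sub_eq_sub_iff_add_eq_add, ← h1]
      abel
    rw [h3, neg_smul, smul_sub]
    abel

/-- The Casimir operator acting on operators. -/
noncomputable def cas (e h f : End K T) : End K (End K T) :=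
  ad K h * ad K h + (2 : K) • ad K h + (4 : K) • (ad K f * ad K e)

theorem cas_apply (z : End K T) : cas e h f z =
    ad K h (ad K h z) + (2 : K) • ad K h z + (4 : K) • ad K f (ad K e z) := rfl

variable (hhf : ad K h f = (-2 : K) • f)

include hhe hh hhf in
theorem cas_e : Commute (cas e h f) (ad K e) := by
  have hh' : ad K h = ad K e * ad K f - ad K f * ad K e := by
    have h1 : ad K h = ad K (ad K e) (ad K f) := by rw [ad_ad, ← hh]
    rw [h1, ad_apply (ad K e) (ad K f)]
  have h1 : ad K h * ad K e = ad K e * ad K h + (2 : K) • ad K e := by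
    have h2 : ad K (ad K h) (ad K e) = (2 : K) • ad K e := by rw [ad_ad, hhe, ad_smul']
    rw [ad_apply (ad K h)] at h2
    rw [← h2]
    abel
  have h3 : ad K e * ad K f = ad K f * ad K e + ad K h := by rw [hh']; abel
  change cas e h f * ad K e = ad K e * cas e h f
  rw [cas]
  generalize ad K h = H at *
  generalize ad K e = E at *
  generalize ad K f = F at *
  have e1 : H * H * E = E * H * H + (4 : K) • (E * H) + (4 : K) • E := by
    rw [mul_assoc, h1, mul_add, ← mul_assoc, h1, add_mul, mul_smul_comm, h1, smul_mul_assoc]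
    module
  have e2 : E * (F * E) = F * E * E + H * E := by rw [← mul_assoc, h3, add_mul]
  rw [add_mul, add_mul, mul_add, mul_add, smul_mul_assoc, smul_mul_assoc, mul_smul_comm,
    mul_smul_comm, e1, e2, h1, ← mul_assoc E H H]
  module

include hhe hhf in
theorem cas_h : Commute (cas e h f) (ad K h) := by
  have h1 : ad K h * ad K e = ad K e * ad K h + (2 : K) • ad K e := by
    have h2 : ad K (ad K h) (ad K e) = (2 : K) • ad K e := by rw [ad_ad, hhe, ad_smul']
    rw [ad_apply (ad K h)] at h2
    rw [← h2]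
    abel
  have h2 : ad K h * ad K f = ad K f * ad K h + (-2 : K) • ad K f := by
    have h2 : ad K (ad K h) (ad K f) = (-2 : K) • ad K f := by rw [ad_ad, hhf, ad_smul']
    rw [ad_apply (ad K h)] at h2
    rw [← h2]
    abel
  change cas e h f * ad K h = ad K h * cas e h f
  rw [cas]
  generalize ad K h = H at *
  generalize ad K e = E at *
  generalize ad K f = F at *
  have e2 : H * (F * E) = F * E * H := by
    rw [← mul_assoc, h2, add_mul, mul_assoc, h1, mul_add, smul_mul_assoc, mul_smul_comm,
      mul_assoc]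
    module
  rw [add_mul, add_mul, mul_add, mul_add, smul_mul_assoc, smul_mul_assoc, mul_smul_comm,
    mul_smul_comm, e2, mul_assoc H H H]

end Pool.Agent.Y126.JB
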