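import Mathlib
import Pool.Agent.Y126.JB.Core
import Pool.Agent.Y126.JB.Sl2

/-!
# Nilpotent elements with Jordan blocks of size one and of even sizes, one of them simple
-/

set_option linter.unusedSectionVars false

namespace Pool.Agent.Y126.JB

open Module Pool.Agent.W522.U Pool.Agent.TH118.CR

section Types

variable {K : Type*} [Field K] [CharZero K] {T : Type*} [AddCommGroup T] [Module K T]
  [FiniteDimensional K T]

/-- `e` is nilpotent, all its Jordan blocks of size greater than one have even size, there are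
blocks of size one, and there is exactly one block of the even size `D + 1`. -/
structure Typ2 (e : End K T) (D : ℕ) : Prop where
  odd : Odd D
  nil : IsNilpotent e
  one : finrank K (Kj e D) = finrank K (Kj e (D + 1)) + 1
  even : ∀ j, 2 ≤ j → Even j → Kj e j = Kj e (j + 1)
  triv : Kj e 0 ≠ Kj e 1

theorem Kj_le {e : End K T} {i j : ℕ} (h : i ≤ j) : Kj e j ≤ Kj e i := by
  intro x hx
  obtain ⟨h1, u, rfl⟩ := mem_Kj.1 hx
  obtain ⟨r, rfl⟩ := Nat.exists_eq_add_of_le h
  exact mem_Kj.2 ⟨h1, (e ^ r) u, by rw [pow_add, Module.End.mul_apply]⟩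

variable {e f h : End K T} (hh : h = ad K e f) (hhe : ad K h e = (2 : K) • e) {D : ℕ}
  (ht : Typ2 e D)

include hh hhe ht in
theorem Typ2.val {a : K} (ha : gE h a ≠ ⊥) : (∃ i : ℕ, a = -(2 * i)) ∨
    ∃ m : ℤ, a = 2 * m + 1 := by
  obtain ⟨v, hv0, hv⟩ := exists_eigvec ha
  obtain ⟨M, hM⟩ := ht.nil
  have hM' : e ^ (M + 1) = 0 := by rw [pow_succ, hM, zero_mul]
  obtain ⟨j, i, hj, hja, hjK⟩ := eig_all hh hhe hM' hv0 hv
  rcases Nat.even_or_odd j with hje | hjo
  · left
    rcases Nat.lt_or_ge j 2 with h2 | h2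
    · have h3 : j = 0 := by
        obtain ⟨r, hr⟩ := hje
        omega
      exact ⟨i, by rw [hja, h3]; simp⟩
    · exact absurd (ht.even j h2 hje) hjK
  · right
    obtain ⟨r, hr⟩ := hjo
    refine ⟨(r : ℤ) - i, ?_⟩
    rw [hja, hr]
    push_cast
    ring

include hh hhe ht in
theorem Typ2.val' {ω : T →ₗ[K] T →ₗ[K] K} (hnd : ∀ u, (∀ v, ω u v = 0) → u = 0)
    (hsk : ∀ u w, ω (h u) w + ω u (h w) = 0) {a : K} (ha : gE h a ≠ ⊥) :
    a = 0 ∨ ∃ m : ℤ, a = 2 * m + 1 := by
  rcases ht.val hh hhe ha with ⟨i, hi⟩ | h1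
  · rcases ht.val hh hhe (dual_ne hnd hsk ha) with ⟨i', hi'⟩ | ⟨m, hm⟩
    · left
      have h2 : ((i + i' : ℕ) : K) = 0 := by
        have h3 : (2 : K) * ((i + i' : ℕ) : K) = 0 := by
          push_cast
          linear_combination hi + hi'
        exact (mul_eq_zero.1 h3).resolve_left two_ne_zero
      rw [Nat.cast_eq_zero] at h2
      have h4 : i = 0 := by omega
      rw [hi, h4]
      simp
    · exfalso
      have h2 : ((2 * (i : ℤ) - (2 * m + 1) : ℤ) : K) = 0 := by
        push_cast
        linear_combination hm + hi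
      rw [Int.cast_eq_zero] at h2
      omega
  · exact Or.inr h1

include hh hhe ht in
theorem Typ2.zero_ne : gE h (0 : K) ≠ ⊥ := by
  intro hcon
  apply ht.triv
  have hinj : Function.Injective h := by
    rw [injective_iff_map_eq_zero]
    intro u hu
    have h1 : u ∈ gE h (0 : K) := mem_gE.2 ⟨1, by rw [pow_one, zero_smul, sub_zero, hu]⟩
    rw [hcon, Submodule.mem_bot] at h1
    exact h1
  refine le_antisymm ?_ (Kj_le (Nat.zero_le 1))
  intro v hv
  have hst : ∀ x ∈ Kj e 0, h x ∈ Kj e 0 := by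
    intro x hx
    have h1 := Kj_step hh hhe hx
    rw [Nat.cast_zero, zero_smul, sub_zero] at h1
    exact Kj_le (Nat.zero_le 1) h1
  have hinj' : Function.Injective (h.restrict hst) := by
    intro x y hxy
    exact Subtype.ext (hinj (congrArg Subtype.val hxy))
  obtain ⟨x, hx⟩ := LinearMap.surjective_of_injective hinj' ⟨v, hv⟩
  have h3 : h (x : T) = v := congrArg Subtype.val hx
  have h1 := Kj_step hh hhe x.2
  rw [Nat.cast_zero, zero_smul, sub_zero, h3] at h1
  exact h1

include hh hhe in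
/-- An eigenvector in the kernel for an eigenvalue smaller than `j` is not in `K_j`. -/
theorem no_small (hen : IsNilpotent e) {j : ℕ} {x : T} (hx : x ∈ Kj e j) {i : ℕ} (hij : i < j)
    (hxi : h x = (i : K) • x) : x = 0 := by
  have h1 : ∀ r, x ∈ Kj e (j + r) := by
    intro r
    induction r with
    | zero => exact hx
    | succ r ih =>
      have h2 := Kj_step hh hhe ih
      rw [hxi, ← sub_smul] at h2
      have h3 : (i : K) - ((j + r : ℕ) : K) ≠ 0 := by
        rw [sub_ne_zero]
        intro h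
        have := Nat.cast_inj.1 h
        omega
      exact (Submodule.smul_mem_iff _ h3).1 h2
  obtain ⟨M, hM⟩ := hen
  obtain ⟨-, u, hu⟩ := mem_Kj.1 (h1 M)
  rw [pow_add, hM, mul_zero, LinearMap.zero_apply] at hu
  exact hu.symm

/-- the primitive vectors of weight `a` -/
def Pr (e h : End K T) (a : K) : Submodule K T := LinearMap.ker e ⊓ gE h a

include hhe in
theorem Pr_st {a : K} {x : T} (hx : x ∈ Pr e h a) : h x ∈ Pr e h a := by
  refine ⟨LinearMap.mem_ker.2 ?_, Module.End.mapsTo_maxGenEigenspace_of_comm rfl _ hx.2⟩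
  have h1 : e x = 0 := hx.1
  have h2 := LinearMap.congr_fun hhe x
  rw [ad_apply, LinearMap.sub_apply, Module.End.mul_apply, Module.End.mul_apply,
    LinearMap.smul_apply, h1, map_zero, smul_zero, zero_sub, neg_eq_zero] at h2
  exact h2

include hh hhe in
theorem Pr_le (D : ℕ) : Pr e h (D : K) ≤ Kj e D := by
  have h2 : ∀ j, j ≤ D → Pr e h (D : K) ≤ Kj e j := by
    intro j
    induction j with
    | zero =>
      intro _ v hv
      exact mem_Kj.2 ⟨hv.1, v, by rw [pow_zero, Module.End.one_apply]⟩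
    | succ j ih =>
      intro hj v hv
      have hjD : (D : K) ≠ j := fun h => by
        have := Nat.cast_inj.1 h
        omega
      have hst : ∀ x ∈ Pr e h (D : K), (h - (j : K) • (1 : End K T)) x ∈ Pr e h (D : K) := by
        intro x hx
        rw [LinearMap.sub_apply, LinearMap.smul_apply, Module.End.one_apply]
        exact Submodule.sub_mem _ (Pr_st hhe hx) (Submodule.smul_mem _ _ hx)
      let g : Pr e h (D : K) →ₗ[K] Pr e h (D : K) := (h - (j : K) • (1 : End K T)).restrict hst
      have hinj : Function.Injective g := by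
        rw [injective_iff_map_eq_zero]
        intro x hx
        have h5 : h (x : T) = (j : K) • (x : T) := by
          have h6 : (h - (j : K) • (1 : End K T)) (x : T) = 0 := congrArg Subtype.val hx
          rw [LinearMap.sub_apply, LinearMap.smul_apply, Module.End.one_apply] at h6
          exact sub_eq_zero.1 h6
        apply Subtype.ext
        have h7 : (x : T) ∈ gE h (j : K) := mem_gE.2 ⟨1, by
          rw [pow_one, LinearMap.sub_apply, LinearMap.smul_apply, Module.End.one_apply, h5,
            sub_self]⟩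
        have h8 := Module.End.disjoint_genEigenspace h hjD ⊤ ⊤
        exact (Submodule.disjoint_def.1 h8) _ x.2.2 h7
      obtain ⟨x, hx⟩ := LinearMap.surjective_of_injective hinj ⟨v, hv⟩
      have h9 : h (x : T) - (j : K) • (x : T) = v := by
        have h10 : (h - (j : K) • (1 : End K T)) (x : T) = v := congrArg Subtype.val hx
        rw [← h10, LinearMap.sub_apply, LinearMap.smul_apply, Module.End.one_apply]
      rw [← h9]
      exact Kj_step hh hhe (ih (by omega) x.2)
  exact h2 D le_rfl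

include hh hhe in
theorem Pr_inf (hen : IsNilpotent e) (D : ℕ) : Pr e h (D : K) ⊓ Kj e (D + 1) = ⊥ := by
  by_contra hne
  obtain ⟨x, hx, hx0, hxD⟩ := exists_eig_in (h := h) (a := (D : K))
    (Pr e h (D : K) ⊓ Kj e (D + 1)) (fun x hx => ⟨Pr_st hhe hx.1, by
      have h1 := Kj_step hh hhe hx.2
      have h2 := Submodule.add_mem _ (Kj_le (Nat.le_succ (D + 1)) h1)
        (Submodule.smul_mem _ ((D + 1 : ℕ) : K) hx.2)
      rwa [sub_add_cancel] at h2⟩) (fun x hx => hx.1.2) hne
  exact hx0 (no_small hh hhe hen hx.2 (Nat.lt_succ_self D) hxD)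

include hh hhe ht in
theorem Typ2.finrank_Pr : finrank K (Pr e h (D : K)) ≤ 1 := by
  have h1 := Submodule.finrank_sup_add_finrank_inf_eq (Pr e h (D : K)) (Kj e (D + 1))
  rw [Pr_inf hh hhe ht.nil, finrank_bot, add_zero] at h1
  have h2 : Pr e h (D : K) ⊔ Kj e (D + 1) ≤ Kj e D :=
    sup_le (Pr_le hh hhe D) (Kj_le (Nat.le_succ D))
  have h3 := Submodule.finrank_mono h2
  rw [h1, ht.one] at h3
  omega

include hh hhe ht in
theorem Typ2.exists_v : ∃ v : T, v ≠ 0 ∧ e v = 0 ∧ h v = (D : K) • v := by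
  by_contra hcon
  push Not at hcon
  -- `h - D` is injective on `K_D` and maps it to `K_{D+1}`
  have hst : ∀ x ∈ Kj e D, (h - (D : K) • (1 : End K T)) x ∈ Kj e (D + 1) := by
    intro x hx
    rw [LinearMap.sub_apply, LinearMap.smul_apply, Module.End.one_apply]
    exact Kj_step hh hhe hx
  let g : Kj e D →ₗ[K] Kj e (D + 1) := (h - (D : K) • (1 : End K T)).restrict hst
  have hinj : Function.Injective g := by
    rw [injective_iff_map_eq_zero]
    intro x hx
    by_contra hx0
    have h6 : (h - (D : K) • (1 : End K T)) (x : T) = 0 := congrArg Subtype.val hx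
    rw [LinearMap.sub_apply, LinearMap.smul_apply, Module.End.one_apply] at h6
    exact hcon x (fun h => hx0 (Subtype.ext h)) (mem_Kj.1 x.2).1 (sub_eq_zero.1 h6)
  have h1 := LinearMap.finrank_le_finrank_of_injective hinj
  rw [ht.one] at h1
  omega

include hh hhe in
/-- `h` is zero on the generalized eigenspace for `0`, if `2` is not an eigenvalue. -/
theorem h_zero (hen : IsNilpotent e) (h2 : gE h (2 : K) = ⊥) {x : T} (hx : x ∈ gE h (0 : K)) :
    e x = 0 ∧ h x = 0 := by
  have he2 : e ∈ gE (ad K h) 2 := by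
    refine mem_gE.2 ⟨1, ?_⟩
    rw [pow_one, LinearMap.sub_apply, hhe, LinearMap.smul_apply, Module.End.one_apply, sub_self]
  have hex : ∀ x ∈ gE h (0 : K), e x = 0 := by
    intro x hx
    have h3 := gE_mul he2 hx
    rw [zero_add, h2, Submodule.mem_bot] at h3
    exact h3
  have hPr : ∀ x ∈ gE h (0 : K), x ∈ Pr e h ((0 : ℕ) : K) := by
    intro x hx
    rw [Nat.cast_zero]
    exact ⟨LinearMap.mem_ker.2 (hex x hx), hx⟩
  refine ⟨hex x hx, ?_⟩
  have h3 := hPr x hx
  have h4 := Pr_st hhe h3
  have h5 := Kj_step hh hhe (Pr_le hh hhe 0 h3)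
  rw [Nat.cast_zero, zero_smul, sub_zero] at h5
  have h6 : h x ∈ Pr e h ((0 : ℕ) : K) ⊓ Kj e (0 + 1) := ⟨h4, h5⟩
  rw [Pr_inf hh hhe hen 0, Submodule.mem_bot] at h6
  exact h6

end Types

variable {K : Type} [Field K] [CharZero K] [IsAlgClosed K] {T : Type} [AddCommGroup T]
  [Module K T] [FiniteDimensional K T] {Γ : Type} [Group Γ] {R : Representation K Γ T}
  {L : Submodule K (End K T)} {ω : T →ₗ[K] T →ₗ[K] K} {χ : Γ →* K}

/-- **Moving a vector**. -/
theorem exists_move (hconj : ∀ g : Γ, ∀ Y ∈ L, R g * Y * R g⁻¹ ∈ L)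
    (hbr : ∀ Y ∈ L, ∀ Z ∈ L, Y * Z - Z * Y ∈ L)
    (hX : SI R (⊤ : Submodule K T)) {h e : End K T} (hh : h ∈ L) (he : e ∈ L) (he0 : e ≠ 0)
    (hhe : ad K h e = (2 : K) • e)
    (hval : ∀ a : K, gE h a ≠ ⊥ → a = 0 ∨ IsOdd a) (h0 : gE h (0 : K) ≠ ⊥)
    {d : K} (hd : IsOdd d) {v : T} (hv : v ∈ gE h d) (hv0 : v ≠ 0) :
    ∃ x ∈ L ⊓ gE (ad K h) (-d), x v ≠ 0 := by
  classical
  have htop : ⨆ a, gE h a = ⊤ := Module.End.iSup_maxGenEigenspace_eq_top h
  -- the decomposition of `L`
  have hL : L = ⨆ μ : K, L ⊓ gE (ad K h) μ :=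
    Submodule.eq_iSup_inf_genEigenspace (f := ad K h) (p := L) ⊤
      (fun x hx => hbr h hh x hx) (Module.End.iSup_maxGenEigenspace_eq_top (ad K h))
  -- the weights of nonzero elements
  have hext : ∀ {z : End K T}, z ≠ 0 → ∃ a : K, ∃ v ∈ gE h a, z v ≠ 0 := by
    intro z hz
    by_contra hcon
    push Not at hcon
    apply hz
    have h1 : (⨆ a, gE h a) ≤ LinearMap.ker z := iSup_le fun a v hv => hcon a v hv
    rw [htop, top_le_iff, LinearMap.ker_eq_top] at h1
    exact h1
  have hne : ∀ {a : K} {v : T}, v ∈ gE h a → v ≠ 0 → a = 0 ∨ IsOdd a := by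
    intro a v hv hv0
    exact hval a ((Submodule.ne_bot_iff _).2 ⟨v, hv, hv0⟩)
  have hwt : ∀ {μ : K} {z : End K T}, z ∈ gE (ad K h) μ → z ≠ 0 → IsEven μ ∨ IsOdd μ := by
    intro μ z hz hz0
    obtain ⟨a, v, hv, hzv⟩ := hext hz0
    have hv0 : v ≠ 0 := fun h => hzv (by rw [h, map_zero])
    have h1 := gE_mul hz hv
    have e1 : μ = -a + (a + μ) := by ring
    rcases hne hv hv0 with ha | ha <;> rcases hne h1 hzv with hb | hb
    · rw [ha, zero_add] at hb
      left
      rw [hb]
      exact even_zero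
    · rw [ha, zero_add] at hb
      exact Or.inr hb
    · right
      rw [e1, hb, add_zero]
      exact odd_neg ha
    · left
      rw [e1]
      exact odd_odd (odd_neg ha) hb
  -- the vectors killed by the odd part
  let U : Submodule K T :=
    { carrier := {u | ∀ μ : K, IsOdd μ → ∀ z ∈ L ⊓ gE (ad K h) μ, z u = 0}
      zero_mem' := fun μ _ z _ => map_zero z
      add_mem' := fun {u v} hu hv μ hμ z hz => by
        rw [map_add, hu μ hμ z hz, hv μ hμ z hz, add_zero]
      smul_mem' := fun c u hu μ hμ z hz => by rw [map_smul, hu μ hμ z hz, smul_zero] }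
  have hUst : ∀ y ∈ L, ∀ u ∈ U, y u ∈ U := by
    intro y hy u hu
    rw [hL] at hy
    refine Submodule.iSup_induction _ (motive := fun y => y u ∈ U) hy ?_ ?_ ?_
    · intro ν y hy
      by_cases hy0 : y = 0
      · rw [hy0, LinearMap.zero_apply]
        exact U.zero_mem
      rcases hwt hy.2 hy0 with hν | hν
      · intro μ hμ z hz
        have h1 : z (y u) = y (z u) + (z * y - y * z) u := by
          rw [LinearMap.sub_apply, Module.End.mul_apply, Module.End.mul_apply]
          abel
        have h2 : z * y - y * z ∈ L ⊓ gE (ad K h) (ν + μ) :=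
          ⟨hbr z hz.1 y hy.1, gE_br hz.2 hy.2⟩
        rw [h1, hu μ hμ z hz, map_zero, zero_add]
        refine hu _ ?_ _ h2
        rw [add_comm]
        exact odd_even hμ hν
      · have h1 : y u = 0 := hu ν hν y hy
        rw [h1]
        exact U.zero_mem
    · rw [LinearMap.zero_apply]
      exact U.zero_mem
    · intro y z hy hz
      rw [LinearMap.add_apply]
      exact U.add_mem hy hz
  -- the odd part is not zero
  obtain ⟨μ₀, hμ₀, z₀, hz₀, hz₀0⟩ : ∃ μ : K, IsOdd μ ∧ ∃ z ∈ L ⊓ gE (ad K h) μ, z ≠ 0 := by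
    by_contra hcon
    push Not at hcon
    apply he0
    refine Pool.Agent.TH118.SC.ann_space hX L hconj h0 ?_ he ?_
    · intro y hy u hu
      rw [hL] at hy
      refine Submodule.iSup_induction _ (motive := fun y => y u ∈ gE h (0 : K)) hy ?_ ?_ ?_
      · intro ν y hy
        by_cases hy0 : y = 0
        · rw [hy0, LinearMap.zero_apply]
          exact Submodule.zero_mem _
        by_cases hyu : y u = 0
        · rw [hyu]
          exact Submodule.zero_mem _
        have h1 := gE_mul hy.2 hu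
        rw [zero_add] at h1
        rcases hne h1 hyu with hν | hν
        · rwa [hν] at h1
        · exact absurd (hcon ν hν y hy) hy0
      · rw [LinearMap.zero_apply]
        exact Submodule.zero_mem _
      · intro y z hy hz
        rw [LinearMap.add_apply]
        exact Submodule.add_mem _ hy hz
    · intro u hu
      have he2 : e ∈ gE (ad K h) 2 := by
        refine mem_gE.2 ⟨1, ?_⟩
        rw [pow_one, LinearMap.sub_apply, hhe, LinearMap.smul_apply, Module.End.one_apply, sub_self]
      have h1 := gE_mul he2 hu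
      by_contra h2
      rcases hne h1 h2 with h3 | h3
      · rw [zero_add] at h3
        exact two_ne_zero h3
      · rw [zero_add] at h3
        exact not_both h3 ⟨1, by simp⟩
  have hU : U = ⊥ := by
    by_contra hU
    apply hz₀0
    exact Pool.Agent.TH118.SC.ann_space hX L hconj hU hUst hz₀.1 fun u hu => hu μ₀ hμ₀ z₀ hz₀
  by_contra hcon
  push Not at hcon
  apply hv0
  rw [← Submodule.mem_bot K, ← hU]
  intro μ hμ z hz
  by_contra hzv
  have h1 := gE_mul hz.2 hv
  rcases hne h1 hzv with h2 | h2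
  · have h3 : μ = -d := by linear_combination h2
    rw [h3] at hz
    exact hzv (hcon z hz)
  · exact not_both h2 (odd_odd hd hμ)

/-- **The primitive element of weight `D`.** -/
theorem exists_prim (hbr : ∀ Y ∈ L, ∀ Z ∈ L, Y * Z - Z * Y ∈ L) {e f h : End K T}
    (he : e ∈ L) (hf : f ∈ L) (hh : h = ad K e f) (hhe : ad K h e = (2 : K) • e)
    (hhf : ad K h f = (-2 : K) • f) (hen : IsNilpotent e)
    (h2 : gE h (2 : K) = ⊥) (h2' : gE h (-2 : K) = ⊥) {D : ℕ} {v : T} (hev : e v = 0)
    (hhv : h v = (D : K) • v) {y : End K T} (hy : y ∈ L ⊓ gE (ad K h) (-(D : K)))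
    (hyv : y v ≠ 0) : ∃ x ∈ L, x ≠ 0 ∧ ad K e x = 0 ∧ ad K h x = (D : K) • x := by
  classical
  have hhL : h ∈ L := by rw [hh]; exact hbr e he f hf
  have hv : v ∈ gE h (D : K) := mem_gE.2 ⟨1, by
    rw [pow_one, LinearMap.sub_apply, LinearMap.smul_apply, Module.End.one_apply, hhv, sub_self]⟩
  set C := cas e h f with hC
  have hCe : Commute C (ad K e) := cas_e hh hhe hhf
  have hCh : Commute C (ad K h) := cas_h hhe hhf
  have hst : ∀ z ∈ L, ad K e z ∈ L := fun z hz => hbr e he z hz
  have hstf : ∀ z ∈ L, ad K f z ∈ L := fun z hz => hbr f hf z hz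
  have hsth : ∀ z ∈ L, ad K h z ∈ L := fun z hz => hbr h hhL z hz
  have hstC : ∀ z ∈ L, C z ∈ L := fun z hz => by
    rw [hC, cas_apply]
    exact L.add_mem (L.add_mem (hsth _ (hsth _ hz)) (L.smul_mem _ (hsth _ hz)))
      (L.smul_mem _ (hstf _ (hst _ hz)))
  set c₀ : K := (D : K) * (D + 2) with hc₀
  -- the Casimir operator on elements of weight `-D`, applied to `v`
  have hCv : ∀ z ∈ gE (ad K h) (-(D : K)), (C z) v = c₀ • z v := by
    intro z hz
    have hmap : ∀ z ∈ gE (ad K h) (-(D : K)), e (z v) = 0 ∧ h (z v) = 0 := by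
      intro z hz
      have h1 := gE_mul hz hv
      rw [add_neg_cancel] at h1
      exact h_zero hh hhe hen h2 h1
    have hH : ∀ z ∈ gE (ad K h) (-(D : K)), (ad K h z) v = -((D : K) • z v) := by
      intro z hz
      rw [ad_apply, LinearMap.sub_apply, Module.End.mul_apply, Module.End.mul_apply, (hmap z hz).2,
        hhv, map_smul, zero_sub]
    have hHz : ad K h z ∈ gE (ad K h) (-(D : K)) :=
      Module.End.mapsTo_maxGenEigenspace_of_comm rfl _ hz
    have hEv : (ad K e z) v = 0 := by
      rw [ad_apply, LinearMap.sub_apply, Module.End.mul_apply, Module.End.mul_apply, (hmap z hz).1,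
        hev, map_zero, sub_zero]
    have hfv : e (f v) = (D : K) • v := by
      have h3 := LinearMap.congr_fun hh v
      rw [ad_apply, LinearMap.sub_apply, Module.End.mul_apply, Module.End.mul_apply, hev, map_zero,
        sub_zero, hhv] at h3
      exact h3.symm
    have hzfv : z (f v) = 0 := by
      have hf2 : f ∈ gE (ad K h) (-2) := by
        refine mem_gE.2 ⟨1, ?_⟩
        rw [pow_one, LinearMap.sub_apply, hhf, LinearMap.smul_apply, Module.End.one_apply, sub_self]
      have h3 := gE_mul hz (gE_mul hf2 hv)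
      have e1 : (D : K) + -2 + -(D : K) = -2 := by ring
      rw [e1, h2', Submodule.mem_bot] at h3
      exact h3
    have hEfv : (ad K e z) (f v) = -((D : K) • z v) := by
      rw [ad_apply, LinearMap.sub_apply, Module.End.mul_apply, Module.End.mul_apply, hzfv, hfv,
        map_zero, map_smul, zero_sub]
    have hFE : (ad K f (ad K e z)) v = (D : K) • z v := by
      rw [ad_apply f, LinearMap.sub_apply, Module.End.mul_apply, Module.End.mul_apply, hEv,
        map_zero, hEfv, zero_sub, neg_neg]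
    rw [hC, cas_apply, LinearMap.add_apply, LinearMap.add_apply, LinearMap.smul_apply,
      LinearMap.smul_apply, hH _ hHz, hH z hz, hFE, hc₀]
    module
  -- the component
  set P : Submodule K (End K T) := L ⊓ gE (ad K h) (-(D : K)) with hP
  have hPC : ∀ z ∈ P, C z ∈ P := fun z hz =>
    ⟨hstC z hz.1, Module.End.mapsTo_maxGenEigenspace_of_comm hCh.symm _ hz.2⟩
  obtain ⟨y', hy', hy'v⟩ : ∃ y' ∈ P ⊓ gE C c₀, y' v ≠ 0 := by
    by_contra hcon
    push Not at hcon
    apply hyv
    have h3 : P = ⨆ c : K, P ⊓ gE C c :=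
      Submodule.eq_iSup_inf_genEigenspace (f := C) (p := P) ⊤ hPC
        (Module.End.iSup_maxGenEigenspace_eq_top C)
    have hy2 := hy
    rw [h3] at hy2
    refine Submodule.iSup_induction _ (motive := fun y => y v = 0) hy2 ?_ ?_ ?_
    · intro c z hz
      by_cases hc : c = c₀
      · rw [hc] at hz
        exact hcon z hz
      · have hzP := hz.1
        revert hzP
        refine gE_ind (p := fun z : End K T => z ∈ P → z v = 0)
          (fun _ => LinearMap.zero_apply v) (fun z _ h4 hzP => ?_) hz.2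
        have h5 := h4 (P.sub_mem (hPC z hzP) (P.smul_mem c hzP))
        rw [LinearMap.sub_apply, hCv z hzP.2, LinearMap.smul_apply, ← sub_smul] at h5
        exact (smul_eq_zero.1 h5).resolve_left (sub_ne_zero.2 (Ne.symm hc))
    · exact LinearMap.zero_apply v
    · intro a b ha hb
      rw [LinearMap.add_apply, ha, hb, add_zero]
  have hy'0 : y' ≠ 0 := fun h => hy'v (by rw [h, LinearMap.zero_apply])
  -- apply `ad e` as long as possible
  obtain ⟨r, hr, hr'⟩ : ∃ r : ℕ, (ad K e ^ r) y' ≠ 0 ∧ (ad K e ^ (r + 1)) y' = 0 := by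
    obtain ⟨M, hM⟩ := ad_nilpotent (K := K) hen
    have hex : ∃ i, (ad K e ^ i) y' = 0 := ⟨M, by rw [hM, LinearMap.zero_apply]⟩
    have h3 := Nat.find_spec hex
    have h4 : Nat.find hex ≠ 0 := by
      intro h
      rw [h, pow_zero, Module.End.one_apply] at h3
      exact hy'0 h3
    obtain ⟨i, hi⟩ := Nat.exists_eq_succ_of_ne_zero h4
    refine ⟨i, Nat.find_min hex (by omega), ?_⟩
    rw [hi] at h3
    exact h3
  have hmem : ∀ r : ℕ, (ad K e ^ r) y' ∈ L ⊓ gE (ad K h) (-(D : K) + 2 * r) ⊓ gE C c₀ := by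
    intro r
    induction r with
    | zero =>
      rw [pow_zero, Module.End.one_apply, Nat.cast_zero, mul_zero, add_zero]
      exact ⟨hy'.1, hy'.2⟩
    | succ r ih =>
      rw [pow_succ', Module.End.mul_apply]
      refine ⟨⟨hst _ ih.1.1, ?_⟩, Module.End.mapsTo_maxGenEigenspace_of_comm hCe _ ih.2⟩
      have he2 : e ∈ gE (ad K h) 2 := by
        refine mem_gE.2 ⟨1, ?_⟩
        rw [pow_one, LinearMap.sub_apply, hhe, LinearMap.smul_apply, Module.End.one_apply, sub_self]
      have h3 := gE_br he2 ih.1.2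
      have e1 : -(D : K) + 2 * ((r + 1 : ℕ) : K) = -(D : K) + 2 * (r : K) + 2 := by
        push_cast
        ring
      rw [e1]
      exact h3
  -- an eigenvector
  set μ : K := -(D : K) + 2 * r with hμ
  have hQst : ∀ z ∈ L ⊓ gE (ad K h) μ ⊓ gE C c₀ ⊓ LinearMap.ker (ad K e),
      ad K h z ∈ L ⊓ gE (ad K h) μ ⊓ gE C c₀ ⊓ LinearMap.ker (ad K e) := by
    intro z hz
    refine ⟨⟨⟨hsth z hz.1.1.1, Module.End.mapsTo_maxGenEigenspace_of_comm rfl _ hz.1.1.2⟩,
      Module.End.mapsTo_maxGenEigenspace_of_comm hCh _ hz.1.2⟩, LinearMap.mem_ker.2 ?_⟩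
    have h3 : ad K e z = 0 := hz.2
    have hhe' : ad K (ad K h) (ad K e) = (2 : K) • ad K e := by rw [ad_ad, hhe, ad_smul']
    have h4 := LinearMap.congr_fun hhe' z
    rw [ad_apply (ad K h), LinearMap.sub_apply, Module.End.mul_apply, Module.End.mul_apply,
      LinearMap.smul_apply, h3, map_zero, smul_zero, zero_sub, neg_eq_zero] at h4
    exact h4
  obtain ⟨x, hx, hx0, hxμ⟩ := exists_eig_in (h := ad K h) (a := μ)
    (L ⊓ gE (ad K h) μ ⊓ gE C c₀ ⊓ LinearMap.ker (ad K e)) hQst (fun z hz => hz.1.1.2) (by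
      rw [Submodule.ne_bot_iff]
      refine ⟨(ad K e ^ r) y', ⟨hmem r, LinearMap.mem_ker.2 ?_⟩, hr⟩
      rw [← Module.End.mul_apply, ← pow_succ']
      exact hr')
  have hex : ad K e x = 0 := hx.2
  have hCx : C x = (μ * μ + 2 * μ) • x := by
    rw [hC, cas_apply, hex, map_zero, smul_zero, add_zero, hxμ, map_smul, hxμ]
    module
  have hc : μ * μ + 2 * μ = c₀ := by
    by_contra hne
    have h3 : x ∈ gE C (μ * μ + 2 * μ) := mem_gE.2 ⟨1, by
      rw [pow_one, LinearMap.sub_apply, hCx, LinearMap.smul_apply, Module.End.one_apply, sub_self]⟩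
    have h4 := Module.End.disjoint_genEigenspace C hne ⊤ ⊤
    exact hx0 ((Submodule.disjoint_def.1 h4) _ h3 hx.1.2)
  have hμD : μ = D := by
    have h3 : (μ - D) * (μ + (D + 2)) = 0 := by
      rw [hc₀] at hc
      linear_combination hc
    rcases mul_eq_zero.1 h3 with h4 | h4
    · exact sub_eq_zero.1 h4
    · exfalso
      have h5 : ((2 * r + 2 : ℕ) : K) = 0 := by
        push_cast
        rw [hμ] at h4
        linear_combination h4
      rw [Nat.cast_eq_zero] at h5
      omega
  refine ⟨x, hx.1.1.1, hx0, hex, ?_⟩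
  rw [hxμ, hμD]

/-- **A nilpotent element all of whose Jordan blocks have size one or even size, with blocks of size
one and with exactly one block of some even size, generates the symplectic Lie algebra.** -/
theorem full_of_typ2 (halt : ∀ v, ω v v = 0) (hnd : ∀ u, (∀ v, ω u v = 0) → u = 0)
    (hωR : ∀ g u v, ω (R g u) (R g v) = χ g * ω u v)
    (hconj : ∀ g : Γ, ∀ Y ∈ L, R g * Y * R g⁻¹ ∈ L)
    (hbr : ∀ Y ∈ L, ∀ Z ∈ L, Y * Z - Z * Y ∈ L)
    (hsp : ∀ Y ∈ L, ∀ u w, ω (Y u) w + ω u (Y w) = 0)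
    (hX : SI R (⊤ : Submodule K T)) {e : End K T} (he : e ∈ L) {D : ℕ} (ht : Typ2 e D) :
    ∀ u v, Pool.Agent.H204R3.SP.SS ω u v ∈ L := by
  have he0 : e ≠ 0 := by
    rintro rfl
    have h1 := ht.one
    have h2 : Kj (0 : End K T) D = ⊥ := by
      rw [eq_bot_iff]
      intro x hx
      obtain ⟨-, u, hu⟩ := mem_Kj.1 hx
      obtain ⟨r, hr⟩ := ht.odd
      rw [zero_pow (by omega), LinearMap.zero_apply] at hu
      rw [← hu]
      exact Submodule.zero_mem _
    rw [h2, finrank_bot] at h1
    omega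
  obtain ⟨f₁, hf₁, hf2⟩ := jm hbr (fun y hy h => trace_nondeg hconj hbr hX hnd hsp hy h) he
    ht.nil
  obtain ⟨h, hh₁⟩ : ∃ h, h = ad K e f₁ := ⟨_, rfl⟩
  have hhe : ad K h e = (2 : K) • e := by
    have h1 : ad K h e = -ad K e h := by rw [ad_apply, ad_apply]; abel
    rw [h1, hh₁, hf2, neg_smul, neg_neg]
  obtain ⟨f, hf, hh, hhf⟩ := exists_f hh₁ hhe hbr he hf₁ ht.nil
  have hhL : h ∈ L := by rw [hh]; exact hbr e he f hf
  have hsk := hsp h hhL
  have hval : ∀ a : K, gE h a ≠ ⊥ → a = 0 ∨ IsOdd a := fun a ha => ht.val' hh hhe hnd hsk ha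
  have hev : ∀ a : K, IsEven a → a ≠ 0 → gE h a = ⊥ := by
    intro a ha ha0
    by_contra hne
    rcases hval a hne with h1 | h1
    · exact ha0 h1
    · exact not_both h1 ha
  have h2 : gE h (2 : K) = ⊥ := hev 2 ⟨1, by simp⟩ two_ne_zero
  have h2' : gE h (-2 : K) = ⊥ := hev (-2) (even_neg ⟨1, by simp⟩) (neg_ne_zero.2 two_ne_zero)
  obtain ⟨v, hv0, hev', hhv⟩ := ht.exists_v hh hhe
  have hD := odd_cast (K := K) ht.odd
  have hD0 := hD.ne_zero
  have hv : v ∈ gE h (D : K) := mem_gE.2 ⟨1, by
    rw [pow_one, LinearMap.sub_apply, LinearMap.smul_apply, Module.End.one_apply, hhv, sub_self]⟩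
  obtain ⟨y, hy, hyv⟩ := exists_move hconj hbr hX hhL he he0 hhe hval (ht.zero_ne hh hhe) hD hv hv0
  obtain ⟨x, hx, hx0, hex, hhx⟩ := exists_prim hbr he hf hh hhe hhf ht.nil h2 h2' hev' hhv hy hyv
  -- the rank of `x`
  have htop : ⨆ a, gE h a = ⊤ := Module.End.iSup_maxGenEigenspace_eq_top h
  have hxg : x ∈ gE (ad K h) (D : K) := mem_gE.2 ⟨1, by
    rw [pow_one, LinearMap.sub_apply, LinearMap.smul_apply, Module.End.one_apply, hhx, sub_self]⟩
  have hspan : ∀ w ∈ Pr e h (D : K), ∃ c : K, c • v = w := by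
    intro w hw
    have h3 : finrank K (Pr e h (D : K)) = 1 := by
      refine le_antisymm (ht.finrank_Pr hh hhe) ?_
      rw [Submodule.one_le_finrank_iff, Submodule.ne_bot_iff]
      exact ⟨v, ⟨LinearMap.mem_ker.2 hev', hv⟩, hv0⟩
    obtain ⟨c, hc⟩ := (finrank_eq_one_iff_of_nonzero' (⟨v, LinearMap.mem_ker.2 hev', hv⟩ :
      Pr e h (D : K)) (fun h => hv0 (congrArg Subtype.val h))).1 h3 ⟨w, hw⟩
    exact ⟨c, congrArg Subtype.val hc⟩
  have hskew : ∀ x y, ω x y = -ω y x := by
    intro x y
    have h1 := halt (x + y)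
    rw [map_add, map_add, LinearMap.add_apply, LinearMap.add_apply, halt, halt, zero_add,
      add_zero] at h1
    exact eq_neg_of_add_eq_zero_left (by rw [add_comm]; exact h1)
  -- `x` kills all the other eigenspaces
  have hkill : ∀ a : K, a ≠ 0 → a ≠ -(D : K) → ∀ w ∈ gE h a, x w = 0 := by
    intro a ha0 had w hw
    by_contra hxw
    have hw0 : w ≠ 0 := fun h => hxw (by rw [h, map_zero])
    have h1 := gE_mul hxg hw
    have h2 := (hval a ((Submodule.ne_bot_iff _).2 ⟨w, hw, hw0⟩)).resolve_left ha0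
    rcases hval _ ((Submodule.ne_bot_iff _).2 ⟨x w, h1, hxw⟩) with h3 | h3
    · exact had (by linear_combination h3)
    · exact not_both h3 (odd_odd h2 hD)
  have hx0' : ∀ t ∈ gE h (0 : K), ∃ c : K, c • v = x t := by
    intro t ht0
    refine hspan _ ⟨LinearMap.mem_ker.2 ?_, ?_⟩
    · have h1 := LinearMap.congr_fun hex t
      rw [ad_apply, LinearMap.sub_apply, Module.End.mul_apply, Module.End.mul_apply,
        (h_zero hh hhe ht.nil h2 ht0).1, map_zero, sub_zero, LinearMap.zero_apply] at h1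
      exact h1
    · have h1 := gE_mul hxg ht0
      rwa [zero_add] at h1
  -- on the eigenspace for `-D`
  have hxa : ∀ a ∈ gE h (-(D : K)), ω a v = 0 → x a = 0 := by
    intro a ha hav
    have h1 := gE_mul hxg ha
    refine hnd _ fun y => ?_
    have hle : (⨆ b, gE h b) ≤ LinearMap.ker (ω (x a)) := by
      rw [iSup_le_iff]
      intro b w hw
      rw [LinearMap.mem_ker]
      by_cases hb : b = 0
      · subst hb
        obtain ⟨c, hc⟩ := hx0' w hw
        have h3 := hsp x hx a w
        rw [← hc, map_smul, hav, smul_zero, add_zero] at h3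
        exact h3
      · refine gE_orth hsk (fun h => hb ?_) h1 hw
        linear_combination h
    rw [htop] at hle
    exact hle (x := y) Submodule.mem_top
  have hxx : ∀ a ∈ gE h (-(D : K)), x (x a) = 0 := by
    intro a ha
    have h1 := gE_mul hxg ha
    rw [neg_add_cancel] at h1
    obtain ⟨c, hc⟩ := hx0' _ h1
    by_cases hav : ω a v = 0
    · rw [hxa a ha hav, map_zero]
    · have h3 := hsp x hx a (x a)
      rw [halt, zero_add, ← hc, map_smul, smul_eq_mul] at h3
      rw [← hc, (mul_eq_zero.1 h3).resolve_right hav, zero_smul]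
  have hxv : x v = 0 := by
    refine hkill (D : K) hD0 (fun h => hD0 ?_) v hv
    have h3 : (2 : K) * (D : K) = 0 := by linear_combination h
    exact (mul_eq_zero.1 h3).resolve_left two_ne_zero
  have hsq : x * x = 0 := by
    have h1 : (⨆ a, gE h a) ≤ LinearMap.ker (x * x) := by
      rw [iSup_le_iff]
      intro a w hw
      rw [LinearMap.mem_ker, Module.End.mul_apply]
      by_cases ha : a = -(D : K)
      · subst ha
        exact hxx w hw
      by_cases ha0 : a = 0
      · subst ha0
        obtain ⟨c, hc⟩ := hx0' w hw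
        rw [← hc, map_smul, hxv, smul_zero]
      · rw [hkill a ha0 ha w hw, map_zero]
    rw [htop, top_le_iff, LinearMap.ker_eq_top] at h1
    exact h1
  have hrk : finrank K ((⊤ : Submodule K T).map x) ≤ 2 := by
    -- a vector which pairs with `v`
    obtain ⟨w₀, hw₀⟩ : ∃ w₀ : T, ∀ a ∈ gE h (-(D : K)), x a ∈ Submodule.span K {w₀} := by
      by_cases hall : ∀ a ∈ gE h (-(D : K)), ω a v = 0
      · exact ⟨0, fun a ha => by rw [hxa a ha (hall a ha)]; exact Submodule.zero_mem _⟩
      · push Not at hall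
        obtain ⟨a₀, ha₀, ha₀v⟩ := hall
        refine ⟨x a₀, fun a ha => ?_⟩
        have h3 : x (a - (ω a v * (ω a₀ v)⁻¹) • a₀) = 0 := by
          refine hxa _ (Submodule.sub_mem _ ha (Submodule.smul_mem _ _ ha₀)) ?_
          rw [map_sub, map_smul, LinearMap.sub_apply, LinearMap.smul_apply, smul_eq_mul,
            mul_assoc, inv_mul_cancel₀ ha₀v, mul_one, sub_self]
        rw [map_sub, map_smul, sub_eq_zero] at h3
        rw [h3]
        exact Submodule.smul_mem _ _ (Submodule.mem_span_singleton_self _)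
    have h1 : (⊤ : Submodule K T).map x ≤ Submodule.span K {v} ⊔ Submodule.span K {w₀} := by
      rw [← htop, Submodule.map_iSup, iSup_le_iff]
      rintro a _ ⟨w, hw, rfl⟩
      by_cases ha : a = -(D : K)
      · subst ha
        exact Submodule.mem_sup_right (hw₀ w hw)
      by_cases ha0 : a = 0
      · subst ha0
        obtain ⟨c, hc⟩ := hx0' w hw
        rw [← hc]
        exact Submodule.mem_sup_left (Submodule.smul_mem _ _ (Submodule.mem_span_singleton_self _))
      · rw [hkill a ha0 ha w hw]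
        exact Submodule.zero_mem _
    have hone : ∀ z : T, finrank K (Submodule.span K {z}) ≤ 1 := by
      intro z
      by_cases hz : z = 0
      · rw [hz, Submodule.span_zero_singleton, finrank_bot]
        exact Nat.zero_le 1
      · exact (finrank_span_singleton hz).le
    have h4 := Submodule.finrank_mono h1
    have h5 := Submodule.finrank_add_le_finrank_add_finrank (Submodule.span K {v})
      (Submodule.span K {w₀})
    have h6 := hone v
    have h7 := hone w₀
    omega
  exact Pool.Agent.TH118.SG.full_of_N halt hnd hωR hconj hbr hsp hX hx hsq hx0 hrk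

end Pool.Agent.Y126.JB
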