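import Pool.Agent.TH125.Gal.Pub

/-!
# Families of varieties with a unipotent element of special Jordan type: definitions
-/

open CategoryTheory AlgebraicGeometry

universe u

namespace Pool.Agent.Y126.JB

open Pool.Agent.TH125.Gal

section Alg

variable {K : Type} [Field K] {A : Type} [Ring A] [Algebra K A] {Γ : Type} [Group Γ]

/-- The vectors of `T` which are fixed by `g` and of the form `(g - 1) ^ j t` with `t` in `T`. -/
def fixIm (T : Submodule K A) (ρ : Γ →* (A ≃ₐ[K] A)) (g : Γ) (j : ℕ) : Submodule K A :=
  T ⊓ LinearMap.ker ((ρ g).toLinearMap - LinearMap.id) ⊓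
    T.map (((ρ g).toLinearMap - LinearMap.id : Module.End K A) ^ j)

/-- The number of Jordan blocks of size `j` of a unipotent element `g` acting on `T`. -/
noncomputable def jordanBlocks (T : Submodule K A) (ρ : Γ →* (A ≃ₐ[K] A)) (g : Γ) (j : ℕ) : ℕ :=
  Module.finrank K (fixIm T ρ g (j - 1)) - Module.finrank K (fixIm T ρ g j)

/-- `g` acts on `T` by a unipotent map, all Jordan blocks of size greater than one have even size,
there are Jordan blocks of size one, and for some even `j` there is exactly one block of size `j`. -/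
def BlockAct (T : Submodule K A) (ρ : Γ →* (A ≃ₐ[K] A)) (g : Γ) : Prop :=
  (∃ k : ℕ, ∀ t ∈ T, (((ρ g).toLinearMap - LinearMap.id : Module.End K A) ^ k) t = 0) ∧
    jordanBlocks T ρ g 1 ≠ 0 ∧ (∀ j, 1 < j → Odd j → jordanBlocks T ρ g j = 0) ∧
    ∃ j, Even j ∧ jordanBlocks T ρ g j = 1

end Alg

open Pool.Agent.H914 Pool.Agent.H914.VarClass Pool.Agent.H914.VarClass.Obj
  Pool.Agent.H914.WeilCohomology Pool.Agent.H281R3.HT Pool.Agent.W552

variable {k : Type u} [Field k] {𝒱 : VarClass k} {ops : CycleOps 𝒱}
  {W : WeilCohomology.{u, 0} ops} {Γ : Type} [Group Γ]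

/-- `Γ` acts on the cohomology of the odd-dimensional varieties `X i` like a Galois group; their
transcendental cohomology is in the middle degree and irreducible under all subgroups of finite
index; numerical and homological equivalence coincide for them; for every `i` there is an element
of `Γ` which acts on the transcendental cohomology of `X i` by a unipotent map with `BlockAct` and
which acts trivially on the cohomology of `Z` and of the other `X j` and by `χ`. -/
structure BlockFamily (χ : Γ →* W.Kˣ) {ι : Type} (X : ι → GVar W Γ) (Z : GVar W Γ) :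
    Prop where
  odd : ∀ i, Odd (X i).X.dim
  galois : ∀ i, IsGaloisAct χ (W.gr (X i).X) (X i).X.dim (W.tr (X i).X)
    (algClasses W (X i).X) (X i).act
  homEqNum : ∀ i, HomEqNum W (X i).X
  middle : ∀ i, transcendental W (X i).X ≤ W.gr (X i).X (X i).X.dim
  irreducible : ∀ i, IrredAct (X i).act (transcendental W (X i).X)
  block : ∀ i, ∃ g : Γ, BlockAct (transcendental W (X i).X) (X i).act g ∧
    χ g = 1 ∧ TrivAct Z.act g ∧ ∀ j, j ≠ i → TrivAct (X j).act g

end Pool.Agent.Y126.JB
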