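import Pool.Agent.TH118.SG.Family
import Pool.Agent.Y126.JB.Defs
import Pool.Agent.Y126.JB.Core2
import Pool.Agent.Y126.JB.Log

/-!
# Families of varieties with a unipotent element of special Jordan type
-/

open CategoryTheory AlgebraicGeometry Finset

set_option linter.unusedSectionVars false

universe u

namespace Pool.Agent.Y126.JB

open Pool.Agent.TH125.Gal Pool.Agent.TH118.SG
open Pool.Agent.H914 Pool.Agent.H914.VarClass Pool.Agent.H914.VarClass.Obj
  Pool.Agent.H914.WeilCohomology Pool.Agent.H281R3.HT Pool.Agent.W552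

section

variable {K : Type*} [Field K] [CharZero K] {T : Type*} [AddCommGroup T] [Module K T]
  [FiniteDimensional K T]

/-- Multiplication by a commuting unit does not change the spaces `Kj`. -/
theorem Kj_unit {M V : Module.End K T} (hV : IsUnit V) (hc : Commute M V) (j : ℕ) :
    Kj (M * V) j = Kj M j := by
  have hVj : IsUnit (V ^ j) := hV.pow j
  have h1 : (M * V) ^ j = M ^ j * V ^ j := hc.mul_pow j
  have h2 : ∀ (N : Module.End K T), IsUnit N → Function.Bijective N := fun N hN =>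
    (Module.End.isUnit_iff N).1 hN
  ext x
  rw [mem_Kj, mem_Kj, h1, hc.eq]
  constructor
  · rintro ⟨h3, u, hu⟩
    refine ⟨(h2 V hV).1 ?_, (V ^ j) u, hu⟩
    rw [map_zero]
    exact h3
  · rintro ⟨h3, u, hu⟩
    obtain ⟨w, rfl⟩ := (h2 _ hVj).2 u
    refine ⟨?_, w, hu⟩
    rw [Module.End.mul_apply, h3, map_zero]

theorem typ2_unit {M V : Module.End K T} (hV : IsUnit V) (hc : Commute M V) {D : ℕ}
    (h : Typ2 M D) : Typ2 (M * V) D := by
  refine ⟨h.odd, hc.isNilpotent_mul_right h.nil, ?_, ?_, ?_⟩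
  · rw [Kj_unit hV hc, Kj_unit hV hc]
    exact h.one
  · intro j hj hje
    rw [Kj_unit hV hc, Kj_unit hV hc]
    exact h.even j hj hje
  · rw [Kj_unit hV hc, Kj_unit hV hc]
    exact h.triv

end

variable {k : Type u} [Field k] {𝒱 : VarClass k} {ops : CycleOps 𝒱}
  {W : WeilCohomology.{u, 0} ops} {Γ : Type} [Group Γ] {χ : Γ →* W.Kˣ}

section

variable {P : Polarized 𝒱} {ρ : Γ →* (W.H P.X ≃ₐ[W.K] W.H P.X)} {Z : 𝒱.Obj}

theorem pow_val (hG : IsGalois W χ P.X ρ) (g : Γ) (j : ℕ) (x : transcendental W P.X) :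
    ((((rhoT hG g - 1) ^ j) x : transcendental W P.X) : W.H P.X) =
      (((ρ g).toLinearMap - LinearMap.id : Module.End W.K (W.H P.X)) ^ j) x := by
  induction j with
  | zero => rfl
  | succ j ih =>
    rw [pow_succ', pow_succ', Module.End.mul_apply, Module.End.mul_apply, ← ih]
    rfl

theorem map_Kj (hG : IsGalois W χ P.X ρ) (g : Γ) (j : ℕ) :
    (Kj (rhoT hG g - 1) j).map (transcendental W P.X).subtype =
      fixIm (transcendental W P.X) ρ g j := by
  ext t
  constructor
  · rintro ⟨x, hx, rfl⟩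
    obtain ⟨h1, u, rfl⟩ := mem_Kj.1 hx
    refine ⟨⟨Subtype.property _, LinearMap.mem_ker.2 ?_⟩, ⟨u, u.2, ?_⟩⟩
    · exact congrArg Subtype.val h1
    · exact (pow_val hG g j u).symm
  · rintro ⟨⟨ht, h1⟩, u, hu, h2⟩
    refine ⟨⟨t, ht⟩, mem_Kj.2 ⟨Subtype.ext h1, ⟨u, hu⟩, Subtype.ext ?_⟩, rfl⟩
    rw [pow_val]
    exact h2

theorem finrank_Kj (hG : IsGalois W χ P.X ρ) (g : Γ) (j : ℕ) :
    Module.finrank W.K (Kj (rhoT hG g - 1) j) =
      Module.finrank W.K (fixIm (transcendental W P.X) ρ g j) := by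
  rw [← map_Kj hG]
  exact (Submodule.finrank_map_subtype_eq _ _).symm

/-- The type of the element. -/
theorem typ2_of (hG : IsGalois W χ P.X ρ) {g : Γ} (hg : BlockAct (transcendental W P.X) ρ g) :
    ∃ D, Typ2 (rhoT hG g - 1) D := by
  obtain ⟨⟨m, hm⟩, h1, hodd, j, hje, hj⟩ := hg
  have hj0 : j ≠ 0 := by
    rintro rfl
    rw [jordanBlocks, Nat.zero_sub, Nat.sub_self] at hj
    exact zero_ne_one hj
  obtain ⟨D, rfl⟩ := Nat.exists_eq_succ_of_ne_zero hj0
  have hle : ∀ i, Module.finrank W.K (Kj (rhoT hG g - 1) (i + 1)) ≤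
      Module.finrank W.K (Kj (rhoT hG g - 1) i) := fun i =>
    Submodule.finrank_mono (Kj_le (Nat.le_succ i))
  have hjb : ∀ i, jordanBlocks (transcendental W P.X) ρ g (i + 1) =
      Module.finrank W.K (Kj (rhoT hG g - 1) i) -
        Module.finrank W.K (Kj (rhoT hG g - 1) (i + 1)) := by
    intro i
    rw [jordanBlocks, finrank_Kj, finrank_Kj, Nat.add_sub_cancel]
  refine ⟨D, ?_, ⟨m, LinearMap.ext fun x => Subtype.ext ?_⟩, ?_, ?_, ?_⟩
  · obtain ⟨r, hr⟩ := hje
    exact ⟨r - 1, by omega⟩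
  · rw [pow_val]
    exact hm x x.2
  · rw [Nat.succ_eq_add_one, hjb] at hj
    have := hle D
    omega
  · intro i hi hie
    have h2 := hodd (i + 1) (by omega) hie.add_one
    rw [hjb] at h2
    have h3 := hle i
    exact (Submodule.eq_of_le_of_finrank_eq (Kj_le (Nat.le_succ i)) (by omega)).symm
  · intro h2
    apply h1
    have h3 := hjb 0
    rw [zero_add] at h3
    rw [h3, h2, Nat.sub_self]

/-- Unipotent elements of special Jordan type. -/
theorem full_block [IsAlgClosed W.K] (hDX : HomEqNum W P.X)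
    (hmid : transcendental W P.X ≤ W.gr P.X P.X.dim)
    (hG : IsGalois W χ P.X ρ) (hodd : Odd P.X.dim)
    (hirr : StronglyIrreducible ρ (transcendental W P.X)) {g : Γ} (hχ : χ g = 1)
    (hg : BlockAct (transcendental W P.X) ρ g) : Full hG Z g := by
  intro S _ _ σ hσ x y
  rw [rk_eq_SS]
  obtain ⟨D, hD⟩ := typ2_of hG hg
  obtain ⟨m, hm⟩ := hD.nil
  obtain ⟨V, hV, hVc, hlg⟩ := lg_eq (K := W.K) (rhoT hG g - 1) hm
  have hB : ∀ g a b, rform W P.X (transcendental W P.X) (rhoT hG g a) (rhoT hG g b) =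
      mult χ P.X.dim g * rform W P.X (transcendental W P.X) a b := by
    intro g a b
    rw [mult_apply]
    exact bil_act hG g a b
  have hN : lg W.K (rhoT hG g - 1) m ∈
      LL S (rform W P.X (transcendental W P.X)) (rhoT hG) σ := by
    refine lg_mem hm (fun x y => ?_) hσ
    rw [hB, mult_apply, hχ, Units.val_one, one_pow, one_mul]
  rw [hlg] at hN
  have hex : ∃ x : transcendental W P.X, x ≠ 0 := by
    by_contra hcon
    push Not at hcon
    apply hD.triv
    ext x
    rw [hcon x]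
    simp only [Submodule.zero_mem]
  refine full_of_typ2 (R := rhoT hG) (χ := mult χ P.X.dim) (form_alt hmid hodd)
    (trans_nondeg hDX) hB ?_ (fun Y hY Z hZ => LL_bracket hY hZ) (fun Y hY u w => hY.1 u w)
    (SI_conv hex (SI_rhoT hG hirr)) hN (typ2_unit hV hVc hD) x y
  intro g Y hY
  exact LL_conj (μ := mult χ P.X.dim) hB hY g

end

/-- **The Tate conjecture for towers.** -/
theorem tate_block [IsAlgClosed W.K] {ι : Type} {X : ι → GVar W Γ} {Z : GVar W Γ}
    (h : BlockFamily χ X Z) {S : Set ι} {Y : GVar W Γ} (hY : GTower X Z S Y) :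
    TateConjecture χ Y ↔ TateConjecture χ Z := by
  induction hY with
  | base => exact Iff.rfl
  | @step S Y Y' i n hT hi hn hP ih =>
    obtain ⟨g, hg, hχ, hZ, hj⟩ := h.block i
    rw [← ih]
    obtain ⟨υ, h1, h2⟩ := hP
    have hG := isGalois (h.galois i)
    have hfull : Full (P := ⟨(X i).X, 0⟩) hG Y.X g :=
      full_block (P := ⟨(X i).X, 0⟩) (h.homEqNum i) (h.middle i) hG (h.odd i)
        (h.irreducible i) hχ hg
    constructor
    · refine tate_conv (P := ⟨(X i).X, 0⟩) (h.homEqNum i) ?_ (isPowAct h1 h2)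
      intro h3
      apply hg.2.1
      have h4 : ∀ t : W.H (X i).X, t = 0 := fun t => by rw [← one_mul t, h3, zero_mul]
      have h5 : ∀ j, fixIm (transcendental W (X i).X) (X i).act g j = ⊥ := by
        intro j
        rw [eq_bot_iff]
        intro t _
        rw [h4 t]
        exact Submodule.zero_mem _
      rw [jordanBlocks, h5, h5, finrank_bot]
    · refine tate_step' (P := ⟨(X i).X, 0⟩) (h.homEqNum i) (h.middle i) hG
        (isPowAct h1 h2) (h.odd i) hχ ?_ hfull
      exact trivAct.1 (hT.trivAct (fun j hjS => hj j fun h' => hi (h' ▸ hjS)) hZ)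

end Pool.Agent.Y126.JB
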